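import Mathlib
import Pool.Agent.Collatz3.FWLln
import Pool.Agent.CPR.Defs

set_option autoImplicit false

/-!
# Passage times of primes, module Stab

The normalised hitting time does not change much in the first `O(log log n)` steps.
-/

namespace Pool.Agent.Helper15.PT

open Filter
open Pool.Agent.Collatz3.FW (Tn iter_cast)
open Pool.Agent.CPR (abs_iter_ge abs_iter_le)
open Pool.Agent.Helper14 (T)

/-- `k` is the first time at which the orbit of `n` is in `F`. -/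
def Fst (F : Finset ℕ) (n k : ℕ) : Prop := Tn^[k] n ∈ F ∧ ∀ j < k, Tn^[j] n ∉ F

theorem Fst_shift {F : Finset ℕ} {n k j : ℕ} (h : Fst F n k) (hj : j ≤ k) :
    Fst F (Tn^[j] n) (k - j) := by
  refine ⟨?_, ?_⟩
  · rw [← Function.iterate_add_apply, Nat.sub_add_cancel hj]
    exact h.1
  · intro i hi
    rw [← Function.iterate_add_apply]
    exact h.2 _ (by omega)

theorem Fst_unique {F : Finset ℕ} {n k k' : ℕ} (h : Fst F n k) (h' : Fst F n k') : k = k' := by
  rcases lt_trichotomy k k' with h1 | h1 | h1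
  · exact absurd h.1 (h'.2 k h1)
  · exact h1
  · exact absurd h'.1 (h.2 k' h1)

theorem Fst_exists {F : Finset ℕ} {n : ℕ} (h : ∃ k, Tn^[k] n ∈ F) : ∃ k, Fst F n k := by
  classical
  exact ⟨Nat.find h, Nat.find_spec h, fun j hj => Nat.find_min h hj⟩

/-- The mean. -/
noncomputable def gm : ℝ := 2 / Real.log (4 / 3)

/-- The variance. -/
noncomputable def vr : ℝ := 2 * Real.log 3 ^ 2 / Real.log (4 / 3) ^ 3

theorem gm_pos : 0 < gm := by
  unfold gm
  have : 0 < Real.log (4 / 3) := Real.log_pos (by norm_num)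
  positivity

theorem vr_pos : 0 < vr := by
  unfold vr
  have : 0 < Real.log (4 / 3) := Real.log_pos (by norm_num)
  have : 0 < Real.log 3 := Real.log_pos (by norm_num)
  positivity

theorem Tn_bounds (j n : ℕ) : n ≤ 2 ^ j * Tn^[j] n ∧ Tn^[j] n ≤ 2 ^ j * (n + 1) := by
  have h1 := abs_iter_ge j (n : ℤ)
  have h2 := abs_iter_le j (n : ℤ)
  rw [iter_cast, Nat.abs_cast, Nat.abs_cast] at h1 h2
  exact ⟨by exact_mod_cast h1, by exact_mod_cast h2⟩

/-- The logarithm changes little. -/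
theorem logs (K δ R : ℝ) (hδ : 0 < δ) : ∃ N : ℝ, ∀ n : ℕ, N ≤ n → ∀ j : ℕ,
    (j : ℝ) ≤ K * Real.log (Real.log n) →
    R ≤ (Tn^[j] n : ℝ) ∧ 1 ≤ Real.log n ∧ 1 ≤ Real.log (Tn^[j] n) ∧
    (j : ℝ) ≤ δ * √(Real.log n) ∧
    |Real.log (Tn^[j] n) - Real.log n| ≤ δ * √(Real.log n) ∧
    |√(Real.log (Tn^[j] n)) - √(Real.log n)| ≤ δ * √(Real.log n) := by
  -- eventually in `L = log n`
  have e1 : ∀ᶠ L : ℝ in atTop, K * Real.log L + 1 ≤ min δ (1 / 2) * √L := by
    have h0 : 0 < min δ (1 / 2) := lt_min hδ (by norm_num)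
    have h1 := (isLittleO_log_rpow_atTop (show (0 : ℝ) < 1 / 2 by norm_num)).def
      (show 0 < min δ (1 / 2) / (2 * (|K| + 1)) by positivity)
    filter_upwards [h1, eventually_ge_atTop 1,
      Real.tendsto_sqrt_atTop.eventually_ge_atTop (2 / min δ (1 / 2))] with L hL hL1 hL2
    rw [Real.norm_of_nonneg (Real.log_nonneg hL1), Real.norm_of_nonneg (by positivity),
      ← Real.sqrt_eq_rpow] at hL
    have h2 : K * Real.log L ≤ (|K| + 1) * Real.log L := by
      apply mul_le_mul_of_nonneg_right _ (Real.log_nonneg hL1)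
      have := le_abs_self K
      linarith
    have h3 : (|K| + 1) * Real.log L ≤ (|K| + 1) * (min δ (1 / 2) / (2 * (|K| + 1)) * √L) :=
      mul_le_mul_of_nonneg_left hL (by positivity)
    have h4 : (|K| + 1) * (min δ (1 / 2) / (2 * (|K| + 1)) * √L) = min δ (1 / 2) * √L / 2 := by
      field_simp
    have h5 : 1 ≤ min δ (1 / 2) * √L / 2 := by
      rw [div_le_iff₀ h0] at hL2
      linarith
    linarith
  have e2 := ((e1.and (eventually_ge_atTop 16)).and
    (eventually_ge_atTop (2 * (|R| + 1)))).and (eventually_ge_atTop 1)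
  obtain ⟨L₀, hL₀⟩ := e2.exists_forall_of_atTop
  refine ⟨Real.exp (max L₀ 1), ?_⟩
  intro n hn j hj
  have hn0 : (0 : ℝ) < n := lt_of_lt_of_le (Real.exp_pos _) hn
  obtain ⟨L, hL⟩ : ∃ L, L = Real.log n := ⟨_, rfl⟩
  have hLL : L₀ ≤ L := by
    rw [hL]
    refine (le_max_left L₀ 1).trans ?_
    rw [Real.le_log_iff_exp_le hn0]
    exact hn
  obtain ⟨⟨⟨g1, g2⟩, g3⟩, -⟩ := hL₀ L hLL
  rw [← hL] at hj ⊢
  have hn1 : 1 ≤ n := by
    have : (0 : ℝ) < n := hn0
    exact_mod_cast this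
  obtain ⟨b, hb⟩ : ∃ b, b = Tn^[j] n := ⟨_, rfl⟩
  obtain ⟨t1, t2⟩ := Tn_bounds j n
  rw [← hb] at t1 t2 ⊢
  have hb0 : 0 < b := by
    rcases Nat.eq_zero_or_pos b with h | h
    · rw [h, mul_zero] at t1
      omega
    · exact h
  have hb0' : (0 : ℝ) < b := by exact_mod_cast hb0
  obtain ⟨L', hL'⟩ : ∃ L', L' = Real.log b := ⟨_, rfl⟩
  rw [← hL']
  have hl2 := Real.log_two_lt_d9
  have hl2' := Real.log_two_gt_d9
  have hjr : (0 : ℝ) ≤ j := Nat.cast_nonneg j
  have d1 : L ≤ j + L' := by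
    have t1' : (n : ℝ) ≤ 2 ^ j * b := by exact_mod_cast t1
    have h1 := Real.log_le_log hn0 t1'
    rw [Real.log_mul (by positivity) hb0'.ne', Real.log_pow, ← hL, ← hL'] at h1
    nlinarith
  have d2 : L' ≤ j + 1 + L := by
    have t2' : (b : ℝ) ≤ 2 ^ j * (n + 1) := by exact_mod_cast t2
    have t3 : (2 : ℝ) ^ j * (n + 1) ≤ 2 ^ j * (2 * n) := by
      apply mul_le_mul_of_nonneg_left _ (by positivity)
      have : (1 : ℝ) ≤ n := by exact_mod_cast hn1
      linarith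
    have h1 := Real.log_le_log hb0' (t2'.trans t3)
    rw [Real.log_mul (by positivity) (by positivity), Real.log_pow,
      Real.log_mul (by norm_num) hn0.ne', ← hL, ← hL'] at h1
    nlinarith
  have hsL : √L * √L = L := Real.mul_self_sqrt (by linarith)
  have hs4 : 4 ≤ √L := by
    apply Real.le_sqrt_of_sq_le
    linarith
  have m1 : min δ (1 / 2) ≤ δ := min_le_left _ _
  have m2 : min δ (1 / 2) ≤ 1 / 2 := min_le_right _ _
  have m0 : 0 < min δ (1 / 2) := lt_min hδ (by norm_num)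
  have hjL : (j : ℝ) + 1 ≤ min δ (1 / 2) * √L := by linarith
  have hdiff : |L' - L| ≤ min δ (1 / 2) * √L := by
    rw [abs_le]
    constructor <;> linarith
  have hL'2 : L / 2 ≤ L' := by
    have h1 := (abs_le.1 hdiff).1
    have h2 : min δ (1 / 2) * √L ≤ 1 / 2 * √L := mul_le_mul_of_nonneg_right m2 (by linarith)
    nlinarith
  have hL'1 : 8 ≤ L' := by linarith
  have hsL' : √L' * √L' = L' := Real.mul_self_sqrt (by linarith)
  refine ⟨?_, by linarith, by linarith, ?_, ?_, ?_⟩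
  · have h1 : R ≤ L' := by
      have := le_abs_self R
      linarith
    refine h1.trans ?_
    rw [hL']
    have := Real.log_le_sub_one_of_pos hb0'
    linarith
  · refine le_trans ?_ (mul_le_mul_of_nonneg_right m1 (by linarith))
    linarith
  · exact hdiff.trans (mul_le_mul_of_nonneg_right m1 (by linarith))
  · have h1 : |√L' - √L| * (√L' + √L) = |L' - L| := by
      rw [← abs_of_nonneg (show 0 ≤ √L' + √L by positivity), ← abs_mul]
      congr 1
      nlinarith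
    have h2 : |√L' - √L| ≤ |L' - L| := by
      rw [← h1]
      have : 0 ≤ √L' := Real.sqrt_nonneg _
      exact le_mul_of_one_le_right (abs_nonneg _) (by linarith)
    exact h2.trans (hdiff.trans (mul_le_mul_of_nonneg_right m1 (by linarith)))

/-- The normalised hitting time changes little. -/
theorem stab (F : Finset ℕ) (y η K : ℝ) (hη : 0 < η) : ∃ N : ℝ, ∀ n : ℕ, N ≤ n → ∀ j : ℕ,
    (j : ℝ) ≤ K * Real.log (Real.log n) → 1 ≤ Real.log n ∧ 1 ≤ Real.log (Tn^[j] n) ∧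
    0 < Tn^[j] n ∧ ∀ k : ℕ, Fst F n k →
    j ≤ k ∧ Fst F (Tn^[j] n) (k - j) ∧
    ((k : ℝ) - gm * Real.log n ≤ y * √(vr * Real.log n) →
      ((k - j : ℕ) : ℝ) - gm * Real.log (Tn^[j] n) ≤ (y + η) * √(vr * Real.log (Tn^[j] n))) ∧
    (y * √(vr * Real.log n) < (k : ℝ) - gm * Real.log n →
      (y - η) * √(vr * Real.log (Tn^[j] n)) <
        ((k - j : ℕ) : ℝ) - gm * Real.log (Tn^[j] n)) := by
  have hg := gm_pos
  have hv := vr_pos
  have hsv : 0 < √vr := Real.sqrt_pos.2 hv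
  obtain ⟨Q, hQ⟩ : ∃ Q : ℝ, Q = |y| * √vr + 1 + gm := ⟨_, rfl⟩
  have hQ0 : 0 < Q := by rw [hQ]; positivity
  obtain ⟨δ, hδ⟩ : ∃ δ : ℝ, δ = min (1 / 2) (η * √vr / (4 * Q)) := ⟨_, rfl⟩
  have hδ0 : 0 < δ := by rw [hδ]; exact lt_min (by norm_num) (by positivity)
  have hδ1 : δ ≤ 1 / 2 := by rw [hδ]; exact min_le_left _ _
  have hδ2 : 4 * Q * δ ≤ η * √vr := by
    have h1 : δ ≤ η * √vr / (4 * Q) := by rw [hδ]; exact min_le_right _ _
    rw [le_div_iff₀ (by positivity)] at h1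
    linarith
  obtain ⟨N, hN⟩ := logs K δ ((F.sup id : ℕ) + 1 : ℝ) hδ0
  refine ⟨N, fun n hn j hj => ?_⟩
  obtain ⟨r1, r2, r3, r4, r5, r6⟩ := hN n hn j hj
  have hpos : 0 < Tn^[j] n := by
    have h1 : (0 : ℝ) < (Tn^[j] n : ℕ) := by
      have : (0 : ℝ) ≤ ((F.sup id : ℕ) : ℝ) := Nat.cast_nonneg _
      linarith
    exact_mod_cast h1
  refine ⟨r2, r3, hpos, fun k hk => ?_⟩
  have hjk : j ≤ k := by
    by_contra hcon
    push Not at hcon
    have h1 : (k : ℝ) ≤ K * Real.log (Real.log n) := by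
      have : (k : ℝ) ≤ j := by exact_mod_cast hcon.le
      linarith
    have h2 := (hN n hn k h1).1
    have h3 : Tn^[k] n ≤ F.sup id := Finset.le_sup (f := id) hk.1
    have h4 : ((Tn^[k] n : ℕ) : ℝ) ≤ ((F.sup id : ℕ) : ℝ) := by exact_mod_cast h3
    linarith
  refine ⟨hjk, Fst_shift hk hjk, ?_⟩
  obtain ⟨L, hL⟩ : ∃ L, L = Real.log n := ⟨_, rfl⟩
  obtain ⟨L', hL'⟩ : ∃ L', L' = Real.log (Tn^[j] n) := ⟨_, rfl⟩
  rw [← hL] at r2 r4 r5 r6 ⊢
  rw [← hL'] at r3 r5 r6 ⊢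
  rw [Nat.cast_sub hjk, Real.sqrt_mul hv.le, Real.sqrt_mul hv.le]
  have hjr : (0 : ℝ) ≤ j := Nat.cast_nonneg j
  have hs1 : 1 ≤ √L := by rw [Real.one_le_sqrt]; exact r2
  have hs2 : √L ≤ 2 * √L' := by
    have h1 := (abs_le.1 r6).1
    nlinarith
  have r5' := abs_le.1 r5
  have r6' := abs_le.1 r6
  have hyv : |y * √vr * (√L' - √L)| ≤ |y| * √vr * (δ * √L) := by
    rw [abs_mul, abs_mul, abs_of_pos hsv]
    exact mul_le_mul_of_nonneg_left r6 (by positivity)
  have hyv' := abs_le.1 hyv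
  have hgL : gm * |L' - L| ≤ gm * (δ * √L) := mul_le_mul_of_nonneg_left r5 hg.le
  have hgL1 : gm * (L' - L) ≤ gm * (δ * √L) := le_trans (mul_le_mul_of_nonneg_left (le_abs_self _) hg.le) hgL
  have hgL2 : -(gm * (L' - L)) ≤ gm * (δ * √L) := by
    rw [← mul_neg]
    exact le_trans (mul_le_mul_of_nonneg_left (neg_le_abs _) hg.le) hgL
  have hfin : |y| * √vr * (δ * √L) + gm * (δ * √L) + δ * √L ≤ η * √vr * √L' / 2 := by
    have e1 : |y| * √vr * (δ * √L) + gm * (δ * √L) + δ * √L = Q * δ * √L := by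
      rw [hQ]
      ring
    rw [e1]
    have e2 : Q * δ * √L ≤ Q * δ * (2 * √L') := mul_le_mul_of_nonneg_left hs2 (by positivity)
    have e3 : 4 * Q * δ * √L' ≤ η * √vr * √L' := mul_le_mul_of_nonneg_right hδ2 (Real.sqrt_nonneg _)
    linarith
  have hpos2 : 0 < η * √vr * √L' := by
    have : 0 < √L' := Real.sqrt_pos.2 (by linarith)
    positivity
  constructor
  · intro h
    have e1 : (y + η) * (√vr * √L') = y * √vr * (√L' - √L) + y * (√vr * √L) + η * √vr * √L' := by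
      ring
    rw [e1]
    nlinarith
  · intro h
    have e1 : (y - η) * (√vr * √L') = y * √vr * (√L' - √L) + y * (√vr * √L) - η * √vr * √L' := by
      ring
    rw [e1]
    nlinarith

end Pool.Agent.Helper15.PT
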