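import Mathlib
import Pool.Agent.CPR.Upp

set_option autoImplicit false

/-!
# Passage times of primes, module Transfer

If a set `A` is stable under the first `O(log log n)` steps (up to passing to `B`), and `B` has
upper density at most `d` among the odd integers, then the relative upper density of `A` in the primes
is at most `C d^(1/4)`.
-/

namespace Pool.Agent.Helper15.PT

open Finset Filter
open Pool.Agent.CPR (Upp_err sig_sq)
open Pool.Agent.Collatz3.Mix (words mem_words)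
open Pool.Agent.Collatz3.PD (rd en P Per)
open Pool.Agent.Collatz3.FW (Hit Od mem_Od)
open Pool.Agent.Collatz3.PR (Sf VV W2 mem_W2 mem_W1 Odd_G Odd_P Odd_log Odd_two_pow Odd_card
  St_Chain)
open Pool.Agent.Helper90.Straus (Sys)
open Pool.Agent.Helper14 (T)

/-- The parameters. -/
theorem num (A n : ℕ) (hn : 1 ≤ n) {c₀ cV ε : ℝ} (hc₀ : 0 < c₀) (hcV : 0 < cV) (hε : 0 < ε) :
    ∃ l₀ K₁ : ℝ, 0 ≤ K₁ ∧ ∀ l : ℝ, l₀ ≤ l → ∃ k : ℕ, 10 ≤ k ∧ (k : ℝ) ≤ K₁ * Real.log l + 1 ∧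
      (∀ m : ℝ, c₀ * m ≤ 2 * A * Real.log l → 2 * m ≤ k ∧ c₀ * m ≤ k) ∧
      (2 * l) ^ n * (4 / 5) ^ (k / 2) ≤ 1 ∧
      k * l ^ A ≤ cV * (397 / 300) ^ k ∧
      6 * k ≤ l - 1 ∧ 6 * k ≤ ε * (l - 1) := by
  obtain ⟨K, hK⟩ : ∃ K : ℝ, K = 20 * n + 9 * A + 4 * A / c₀ + 2 * A := ⟨_, rfl⟩
  have hn1 : (1 : ℝ) ≤ n := by exact_mod_cast hn
  have hA0 : (0 : ℝ) ≤ A := Nat.cast_nonneg _
  have hq : 0 ≤ 4 * A / c₀ := by positivity
  have hK0 : 20 ≤ K := by linarith
  -- growth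
  have e1 : Tendsto (fun l : ℝ => Real.log l) atTop atTop := Real.tendsto_log_atTop
  have e2 : ∀ᶠ k : ℕ in atTop, (k : ℝ) ≤ cV * (9 / 8) ^ k := by
    have h1 := (tendsto_pow_const_div_const_pow_of_one_lt 1 (show (1 : ℝ) < 9 / 8 by norm_num)).eventually_lt_const
      hcV
    filter_upwards [h1] with k hk
    rw [div_lt_iff₀ (by positivity), pow_one] at hk
    exact hk.le
  have e3 : Tendsto (fun l : ℝ => ⌈K * Real.log l⌉₊) atTop atTop :=
    tendsto_nat_ceil_atTop.comp (Tendsto.const_mul_atTop (by linarith) e1)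
  have e4 : ∀ c : ℝ, 0 < c → ∀ᶠ l : ℝ in atTop, 6 * (K * Real.log l + 1) ≤ c * (l - 1) := by
    intro c hc
    have h1 := Real.isLittleO_log_id_atTop.def (show 0 < c / (12 * K) by positivity)
    filter_upwards [h1, eventually_ge_atTop (2 * (6 + c) / c), eventually_ge_atTop 1] with l h2 h3 h4
    have h5 : 0 ≤ Real.log l := Real.log_nonneg h4
    simp only [id] at h2
    rw [Real.norm_of_nonneg h5, Real.norm_of_nonneg (by linarith)] at h2
    have h6 : 6 * (K * Real.log l) ≤ c / 2 * l := by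
      calc 6 * (K * Real.log l) ≤ 6 * (K * (c / (12 * K) * l)) := by
            have := mul_le_mul_of_nonneg_left h2 (by linarith : 0 ≤ K)
            linarith
        _ = c / 2 * l := by
            have : K ≠ 0 := by linarith
            field_simp
            norm_num
    have h7 : 6 + c ≤ c / 2 * l := by
      rw [div_le_iff₀ hc] at h3
      linarith
    linarith
  have e5 := (e1.eventually_ge_atTop 1).and ((e3.eventually e2).and ((e4 1 one_pos).and ((e4 ε hε).and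
    (eventually_ge_atTop 1))))
  obtain ⟨l₀, hl₀⟩ := e5.exists_forall_of_atTop
  refine ⟨l₀, K, by linarith, fun l hl => ⟨⌈K * Real.log l⌉₊, ?_⟩⟩
  obtain ⟨g1, g2, g3, g4, g5⟩ := hl₀ l hl
  obtain ⟨k, hk⟩ : ∃ k, k = ⌈K * Real.log l⌉₊ := ⟨_, rfl⟩
  rw [← hk] at g2 ⊢
  have hl0 : (0 : ℝ) < l := by linarith
  have k1 : K * Real.log l ≤ k := by
    rw [hk]
    exact Nat.le_ceil _
  have k2 : (k : ℝ) ≤ K * Real.log l + 1 := by
    rw [hk]
    exact (Nat.ceil_lt_add_one (by positivity)).le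
  have k3 : (10 : ℝ) ≤ k := by nlinarith
  have hAl : 0 ≤ A * Real.log l := by positivity
  have hnl : (n : ℝ) ≤ n * Real.log l := le_mul_of_one_le_right (by linarith) g1
  have hql : 0 ≤ 4 * A / c₀ * Real.log l := by positivity
  have k4 : 20 * (n * Real.log l) + 9 * (A * Real.log l) + 4 * A / c₀ * Real.log l +
      2 * (A * Real.log l) ≤ k := by
    refine le_trans (le_of_eq ?_) k1
    rw [hK]
    ring
  refine ⟨by exact_mod_cast k3, k2, ?_, ?_, ?_, by linarith, by linarith⟩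
  · intro m hm
    constructor
    · have h1 : 2 * m ≤ 4 * A / c₀ * Real.log l := by
        rw [div_mul_eq_mul_div, le_div_iff₀ hc₀]
        linarith
      linarith
    · linarith
  · have h1 : ((k : ℝ) - 1) / 2 ≤ ((k / 2 : ℕ) : ℝ) := by
      have : k ≤ 2 * (k / 2) + 1 := by omega
      have : (k : ℝ) ≤ 2 * ((k / 2 : ℕ) : ℝ) + 1 := by exact_mod_cast this
      linarith
    have h2 : (1 / 5 : ℝ) ≤ Real.log (5 / 4) := by
      have := Real.one_sub_inv_le_log_of_pos (show (0 : ℝ) < 5 / 4 by norm_num)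
      norm_num at this ⊢
      linarith
    have h3 : Real.log (2 * l) = Real.log 2 + Real.log l := Real.log_mul (by norm_num) hl0.ne'
    have h4 : (2 * l) ^ n ≤ (5 / 4 : ℝ) ^ (k / 2) := by
      rw [← Real.log_le_log_iff (by positivity) (by positivity), Real.log_pow, Real.log_pow, h3]
      have h5 := Real.log_two_lt_d9
      have h6 : (n : ℝ) * (Real.log 2 + Real.log l) ≤ n * 0.7 + n * Real.log l := by
        rw [mul_add]
        have := mul_le_mul_of_nonneg_left (h5.le.trans (by norm_num : (0.6931471808 : ℝ) ≤ 0.7))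
          (by linarith : (0 : ℝ) ≤ n)
        linarith
      have h7 : ((k : ℝ) - 1) / 2 * (1 / 5) ≤ ((k / 2 : ℕ) : ℝ) * Real.log (5 / 4) :=
        mul_le_mul h1 h2 (by norm_num) (Nat.cast_nonneg _)
      linarith
    have h5 : (4 / 5 : ℝ) ^ (k / 2) = ((5 / 4 : ℝ) ^ (k / 2))⁻¹ := by
      rw [← inv_pow]
      norm_num
    rw [h5, ← div_eq_mul_inv, div_le_one (by positivity)]
    exact h4
  · have h1 : l ^ A ≤ (9 / 8 : ℝ) ^ k := by
      rw [← Real.log_le_log_iff (by positivity) (by positivity), Real.log_pow, Real.log_pow]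
      have h2 : (1 / 9 : ℝ) ≤ Real.log (9 / 8) := by
        have := Real.one_sub_inv_le_log_of_pos (show (0 : ℝ) < 9 / 8 by norm_num)
        norm_num at this ⊢
        linarith
      have h3 : (k : ℝ) * (1 / 9) ≤ k * Real.log (9 / 8) :=
        mul_le_mul_of_nonneg_left h2 (Nat.cast_nonneg _)
      linarith
    calc k * l ^ A ≤ cV * (9 / 8) ^ k * (9 / 8) ^ k :=
          mul_le_mul g2 h1 (by positivity) (by positivity)
      _ = cV * (81 / 64) ^ k := by
          rw [mul_assoc, ← mul_pow]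
          norm_num
      _ ≤ cV * (397 / 300) ^ k :=
          mul_le_mul_of_nonneg_left (pow_le_pow_left₀ (by norm_num) (by norm_num) _) hcV.le

open Classical in
/-- The cover. -/
theorem cover {σ : ℤ} {A B : Set ℤ} (X : ℝ) (z : ℕ)
    (Ω : ℕ → Finset ℕ) {u l : ℝ} {I k R : ℕ} {S : Finset ℕ}
    (hS : ∀ w ∈ Odd_G u l I k R, w.sum ∈ S ∧ w.sum ≤ 3 * k)
    (hz : ∀ n ∈ A, (z : ℤ) ≤ |n| → ∀ j : ℕ, j ≤ 3 * k → T^[j] n ∈ B) :
    (((Od σ X).filter fun n => Sf Ω z n ∧ n ∈ A ∧ (z : ℤ) ≤ |n|).card : ℝ) ≤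
      (((Od σ X).filter fun n => Sf Ω z n ∧
        ¬ Hit (Odd_G u l I k R) (fun _ => Set.univ) n).card : ℝ) +
      ∑ s ∈ S, (((Od σ X).filter fun n => Sf Ω z n ∧
        Hit ((W2 u I k R).filter fun w => w.sum = s) (fun _ => B) n).card : ℝ) := by
  have h1 : ((Od σ X).filter fun n => Sf Ω z n ∧ n ∈ A ∧ (z : ℤ) ≤ |n|) ⊆
      ((Od σ X).filter fun n => Sf Ω z n ∧ ¬ Hit (Odd_G u l I k R) (fun _ => Set.univ) n) ∪
      S.biUnion fun s => (Od σ X).filter fun n => Sf Ω z n ∧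
        Hit ((W2 u I k R).filter fun w => w.sum = s) (fun _ => B) n := by
    intro n hn
    rw [mem_filter] at hn
    obtain ⟨h1, h2, h3, h4⟩ := hn
    rw [mem_union, mem_filter, mem_biUnion]
    by_cases hH : Hit (Odd_G u l I k R) (fun _ => Set.univ) n
    · right
      obtain ⟨w, hw, b, hb, hr, hen, -⟩ := hH
      refine ⟨w.sum, (hS w hw).1, ?_⟩
      rw [mem_filter]
      refine ⟨h1, h2, w, ?_, b, hb, hr, hen, ?_⟩
      · rw [Odd_G, mem_filter] at hw
        rw [mem_filter]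
        exact ⟨hw.1, rfl⟩
      · have hpos : ∀ i ∈ w, 1 ≤ i := by
          intro i hi
          rw [Odd_G, mem_filter, mem_W2, mem_W1] at hw
          exact ((mem_words.1 hw.1.1.1).2 i hi).1
        have h5 := Collatz3.PD.T_en hr hpos
        rw [hen] at h5
        have h7 := hz n h3 h4 w.sum (hS w hw).2
        rw [h5] at h7
        exact h7
    · left
      exact ⟨h1, h2, hH⟩
  have h2 := (card_le_card h1).trans (card_union_le _ _)
  have h3 : ((S.biUnion fun s => (Od σ X).filter fun n => Sf Ω z n ∧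
        Hit ((W2 u I k R).filter fun w => w.sum = s) (fun _ => B) n).card : ℝ) ≤
      ∑ s ∈ S, (((Od σ X).filter fun n => Sf Ω z n ∧
        Hit ((W2 u I k R).filter fun w => w.sum = s) (fun _ => B) n).card : ℝ) := by
    exact_mod_cast card_biUnion_le
  have h4 : (((Od σ X).filter fun n => Sf Ω z n ∧ n ∈ A ∧ (z : ℤ) ≤ |n|).card : ℝ) ≤
      (((Od σ X).filter fun n => Sf Ω z n ∧
        ¬ Hit (Odd_G u l I k R) (fun _ => Set.univ) n).card : ℝ) +
      ((S.biUnion fun s => (Od σ X).filter fun n => Sf Ω z n ∧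
        Hit ((W2 u I k R).filter fun w => w.sum = s) (fun _ => B) n).card : ℝ) := by
    exact_mod_cast h2
  linarith

open Classical in
theorem transfer : ∃ C : ℝ, 0 < C ∧ ∀ (A A' : Set ℤ) (σ : ℤ) (d : ℝ), (σ = 1 ∨ σ = -1) →
    0 < d → d ≤ 1 →
    (∀ K : ℝ, ∃ N : ℝ, ∀ n ∈ A, N ≤ |(n : ℝ)| → ∀ j : ℕ,
      (j : ℝ) ≤ K * Real.log (Real.log |(n : ℝ)|) → T^[j] n ∈ A') →
    (∀ᶠ Y : ℝ in atTop, (((Od σ Y).filter fun b => b ∈ A').card : ℝ) ≤ d * Y) →
    ∀ᶠ x : ℝ in atTop,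
    (Set.ncard {p : ℕ | p.Prime ∧ (p : ℝ) ≤ x ∧ σ * (p : ℤ) ∈ A} : ℝ) ≤
      C * d ^ (1 / 4 : ℝ) * (x / Real.log x) := by
  obtain ⟨ρ, B, hρ0, hρ1, hB, hP⟩ := Odd_P Collatz3.PR.thm_Tail1 Collatz3.PR.thm_Tail2
    Collatz3.PR.thm_Tail3
  obtain ⟨cV, A₀, hcV, hVL⟩ := Collatz3.PR.thm_VL 1 le_rfl
  obtain ⟨CR, hCR, hRes⟩ := Collatz3.PR.thm_Res Collatz3.PR.thm_S1 1 le_rfl
  have hCh : St_Chain := Collatz3.PR.thm_Chain Collatz3.PR.thm_Loc Collatz3.PR.thm_Pt
    Collatz3.PR.thm_Err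
  obtain ⟨CS, I₀, hCS0, hCS⟩ := Collatz3.PR.thm_CS (Collatz3.PR.thm_Avg hCh
    (Collatz3.PR.thm_Div hCh) Collatz3.PR.thm_Sing) Collatz3.PR.thm_S2 1 le_rfl
  obtain ⟨CL, hCL, hlog⟩ := Odd_log 5 (show (0 : ℝ) < 1 / 12 by norm_num)
  have hρl : 0 < -Real.log ρ := by
    have := Real.log_neg hρ0 hρ1
    linarith
  obtain ⟨a, ha⟩ : ∃ a : ℝ, a = 1 / (3 * (-Real.log ρ)) := ⟨_, rfl⟩
  have ha0 : 0 < a := by rw [ha]; positivity
  have haρ : a * (-Real.log ρ) = 1 / 3 := by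
    have hne : Real.log ρ ≠ 0 := by
      intro h0
      rw [h0] at hρl
      simp at hρl
    rw [ha]
    field_simp
  obtain ⟨E, hE⟩ : ∃ E : ℝ, E = CR * (2 + 2 * B) + CS * (2 * (a + 2) ^ 4 * CL) := ⟨_, rfl⟩
  have hE0 : 0 < E := by rw [hE]; positivity
  refine ⟨1 + 3 * E, by positivity, ?_⟩
  intro A A' σ d hσ hd hd1 hA hD
  obtain ⟨L, hL⟩ : ∃ L : ℝ, L = -Real.log d := ⟨_, rfl⟩
  have hL0 : 0 ≤ L := by
    rw [hL]
    have := Real.log_nonpos hd.le hd1
    linarith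
  have hdL : d = Real.exp (-L) := by rw [hL, neg_neg, Real.exp_log hd]
  have hd4 : d ^ (1 / 4 : ℝ) = Real.exp (-(L / 4)) := by
    rw [Real.rpow_def_of_pos hd, hL]
    congr 1
    ring
  obtain ⟨u, hu⟩ : ∃ u : ℝ, u = Real.exp (L / 3) := ⟨_, rfl⟩
  have hu1 : 1 ≤ u := by rw [hu]; exact Real.one_le_exp (by positivity)
  obtain ⟨R, hR⟩ : ∃ R : ℕ, R = ⌈a * L⌉₊ := ⟨_, rfl⟩
  have hR1 : a * L ≤ R := by rw [hR]; exact Nat.le_ceil _
  have hR2 : (R : ℝ) ≤ a * L + 1 := by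
    rw [hR]
    exact (Nat.ceil_lt_add_one (by positivity)).le
  have hρR : ρ ^ R ≤ Real.exp (-(L / 3)) := by
    rw [← Real.rpow_natCast, Real.rpow_def_of_pos hρ0]
    apply Real.exp_le_exp.2
    have h1 : a * L * (-Real.log ρ) ≤ R * (-Real.log ρ) := mul_le_mul_of_nonneg_right hR1 hρl.le
    have h2 : a * L * (-Real.log ρ) = L / 3 := by
      rw [mul_right_comm, haρ]
      ring
    linarith
  have hk_ev : ∀ᶠ k : ℕ in atTop, 2 * R ≤ k ∧
      (k : ℝ) * (1 / 2 : ℝ) ^ (I₀ + 2 * k) + (1 / 2 : ℝ) ^ (k / 2) ≤ Real.exp (-(L / 3)) := by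
    filter_upwards [eventually_ge_atTop (2 * R),
      Upp_err I₀ (Real.exp_pos (-(L / 3)))] with k h1 h3
    exact ⟨h1, h3⟩
  obtain ⟨K₀, hK₀⟩ := hk_ev.exists_forall_of_atTop
  obtain ⟨Y₀, hY₀⟩ := hD.exists_forall_of_atTop
  obtain ⟨l₀, K₁, hK₁, hnum⟩ := num (A₀ + 1) 12 (by norm_num) (one_pos : (0 : ℝ) < 1) hcV
    (one_pos : (0 : ℝ) < 1)
  obtain ⟨N, hN⟩ := hA (6 * K₁ + 3)
  have hev2 : Tendsto (fun x : ℝ => Real.log x / 3 + 1) atTop atTop :=
    tendsto_atTop_add_const_right _ _ (Real.tendsto_log_atTop.atTop_div_const (by norm_num))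
  have hev3 : Tendsto (fun x : ℝ => 2 * ((A₀ + 1 : ℕ) : ℝ) * Real.log (Real.log x / 3 + 1))
      atTop atTop :=
    Tendsto.const_mul_atTop (by positivity) (Real.tendsto_log_atTop.comp hev2)
  have hev5 : ∀ᶠ x : ℝ in atTop, Real.log x ≤ d ^ (1 / 4 : ℝ) * √x := by
    have h1 := (isLittleO_log_rpow_atTop (show (0 : ℝ) < 1 / 2 by norm_num)).def
      (show 0 < d ^ (1 / 4 : ℝ) by positivity)
    filter_upwards [h1, eventually_ge_atTop 1] with x hx hx1
    rw [Real.norm_of_nonneg (Real.log_nonneg hx1), Real.norm_of_nonneg (by positivity),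
      ← Real.sqrt_eq_rpow] at hx
    exact hx
  filter_upwards [eventually_ge_atTop 64, hev2.eventually_ge_atTop l₀,
    hev3.eventually_ge_atTop (K₀ : ℝ), Real.tendsto_sqrt_atTop.eventually_ge_atTop Y₀, hev5,
    Real.tendsto_log_atTop.eventually_ge_atTop (3 * Real.exp 1),
    Real.tendsto_sqrt_atTop.eventually_ge_atTop (N + 1)]
    with x hx1 hx2 hx3 hx4 hx5 hx6 hx7
  have hx0 : 0 < x := by linarith
  obtain ⟨z, hz⟩ : ∃ z : ℕ, z = ⌊√x⌋₊ := ⟨_, rfl⟩
  have hzs : (z : ℝ) ≤ √x := by rw [hz]; exact Nat.floor_le (Real.sqrt_nonneg _)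
  have hzs' : √x < z + 1 := by rw [hz]; exact Nat.lt_floor_add_one _
  have hlz3 : Real.log x / 3 ≤ Real.log z ∧ (4 : ℝ) ≤ z := by
    obtain ⟨t, ht⟩ : ∃ t : ℝ, t = x ^ (1 / 6 : ℝ) := ⟨_, rfl⟩
    have ht0 : 0 < t := by rw [ht]; positivity
    have ht6 : t ^ 6 = x := by
      rw [ht, ← Real.rpow_natCast, ← Real.rpow_mul hx0.le]
      norm_num
    have ht2 : 2 ≤ t := by
      by_contra hcon
      push Not at hcon
      have : t ^ 6 < 2 ^ 6 := pow_lt_pow_left₀ hcon ht0.le (by norm_num)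
      rw [ht6] at this
      linarith
    have hst : √x = t ^ 3 := by
      rw [← ht6, show t ^ 6 = (t ^ 3) ^ 2 by ring]
      exact Real.sqrt_sq (by positivity)
    have hzt : t ^ 2 ≤ z := by
      rw [hst] at hzs'
      nlinarith
    refine ⟨?_, by nlinarith⟩
    have h1 : Real.log x = 6 * Real.log t := by
      rw [← ht6, Real.log_pow]
      norm_num
    have h2 := Real.log_le_log (by positivity) hzt
    rw [Real.log_pow] at h2
    push_cast at h2
    linarith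
  obtain ⟨hlz3, hz4⟩ := hlz3
  have hz4' : 4 ≤ z := by exact_mod_cast hz4
  have hlx : 0 < Real.log x := Real.log_pos (by linarith)
  have hlz : 0 < Real.log z := by linarith
  have hzx : (z : ℝ) ≤ x := by
    refine hzs.trans ?_
    rw [Real.sqrt_le_left hx0.le, sq]
    exact le_mul_of_one_le_left hx0.le (by linarith)
  have hlzx : Real.log z ≤ Real.log x := Real.log_le_log (by linarith) hzx
  obtain ⟨l, hl⟩ : ∃ l : ℝ, l = Real.log z + 1 := ⟨_, rfl⟩
  have hl1 : 1 ≤ l := by rw [hl]; linarith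
  have hll : l₀ ≤ l := by rw [hl]; linarith
  obtain ⟨k, hk10, hkK₁, hm, hBk, hkV, hk6, -⟩ := hnum l hll
  have hkK : K₀ ≤ k := by
    have h1 : 1 * (K₀ : ℝ) ≤ 2 * ((A₀ + 1 : ℕ) : ℝ) * Real.log l := by
      rw [one_mul]
      refine hx3.trans ?_
      apply mul_le_mul_of_nonneg_left _ (by positivity)
      apply Real.log_le_log (by linarith)
      rw [hl]
      linarith
    have h2 := (hm K₀ h1).1
    have h3 : (0 : ℝ) ≤ K₀ := Nat.cast_nonneg _
    have h4 : (K₀ : ℝ) ≤ k := by linarith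
    exact_mod_cast h4
  obtain ⟨hk2R, hkerr⟩ := hK₀ k hkK
  have hk1 : 1 ≤ k := by omega
  have hkr : (1 : ℝ) ≤ k := by exact_mod_cast hk1
  have hsk : 1 ≤ √(k : ℝ) := by rw [Real.one_le_sqrt]; exact hkr
  obtain ⟨I, hI⟩ : ∃ I, I = I₀ + 2 * k := ⟨_, rfl⟩
  have hΩ := Collatz3.PR.sys_zero
  obtain ⟨Ω, hΩd⟩ : ∃ Ω : ℕ → Finset ℕ, Ω = fun _ => {0} := ⟨_, rfl⟩
  have hVle : VV Ω z ≤ 1 / Real.log z := by
    rw [hΩd]
    exact Collatz3.PR.VV_zero_le (by omega)
  rw [← hΩd] at hΩ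
  have hV0 := Collatz3.PR.VV_nonneg hΩ z
  have hV := hVL z Ω (by omega) hΩ
  obtain ⟨V, hVd⟩ : ∃ V, V = VV Ω z := ⟨_, rfl⟩
  rw [← hVd] at hV0 hV hVle
  rw [← hl] at hV
  have hV' : cV ≤ l ^ (A₀ + 1) * V := by
    refine hV.trans (mul_le_mul_of_nonneg_right ?_ hV0)
    exact pow_le_pow_right₀ hl1 (by omega)
  obtain ⟨G, hG⟩ : ∃ G, G = Odd_G u L I k R := ⟨_, rfl⟩
  have hGm : ∀ w ∈ G, w ∈ words I k ∧ 199 * k ≤ 100 * w.sum ∧ 100 * w.sum ≤ 201 * k ∧
      |(w.sum : ℝ) - 2 * k| ≤ L * √k := by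
    intro w hw
    rw [hG, Odd_G, mem_filter, mem_W2, mem_W1] at hw
    have h1 := hw.1.2 k (by omega) le_rfl
    rw [Nat.sub_self, List.drop_zero] at h1
    exact ⟨hw.1.1.1, h1.1, h1.2, hw.2⟩
  obtain ⟨S, hS⟩ : ∃ S : Finset ℕ, S = (range (3 * k + 1)).filter fun s => 199 * k ≤ 100 * s ∧
    100 * s ≤ 201 * k ∧ |(s : ℝ) - 2 * k| ≤ L * √k := ⟨_, rfl⟩
  have hGS : ∀ w ∈ Odd_G u L I k R, w.sum ∈ S ∧ w.sum ≤ 3 * k := by
    intro w hw
    rw [← hG] at hw
    obtain ⟨-, h2, h3, h4⟩ := hGm w hw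
    rw [hS, mem_filter, mem_range]
    exact ⟨⟨by omega, h2, h3, h4⟩, by omega⟩
  have hkz : 6 * (k : ℝ) ≤ Real.log z := by rw [hl] at hk6; linarith
  have hz6 : (2 : ℝ) ^ (6 * k) ≤ z := by
    rw [← Real.log_le_log_iff (by positivity) (by linarith), Real.log_pow]
    have h1 := Real.log_two_lt_d9
    push_cast
    have h2 : 6 * (k : ℝ) * Real.log 2 ≤ 6 * k * 1 :=
      mul_le_mul_of_nonneg_left (by linarith) (by positivity)
    linarith
  have hX6 : (2 : ℝ) ^ (6 * k) ≤ x := hz6.trans hzx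
  have hzC : ∀ n ∈ A, (z : ℤ) ≤ |n| → ∀ j : ℕ, j ≤ 3 * k → T^[j] n ∈ A' := by
    intro n hn hzn j hj
    have hzn' : (z : ℝ) ≤ |(n : ℝ)| := by exact_mod_cast hzn
    have hlz1 : Real.exp 1 ≤ Real.log z := by linarith
    have e2 : (2 : ℝ) ≤ Real.exp 1 := by
      have := Real.add_one_le_exp (1 : ℝ)
      linarith
    have hlln : Real.log (Real.log z) ≤ Real.log (Real.log |(n : ℝ)|) := by
      apply Real.log_le_log hlz
      exact Real.log_le_log (by linarith) hzn'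
    have hll1 : 1 ≤ Real.log (Real.log z) := by
      rw [Real.le_log_iff_exp_le hlz]
      exact hlz1
    have hl2 : Real.log l ≤ 2 * Real.log (Real.log z) := by
      have h1 : Real.log l ≤ Real.log (Real.log z ^ 2) := by
        apply Real.log_le_log (by linarith)
        rw [hl]
        nlinarith
      rw [Real.log_pow] at h1
      exact_mod_cast h1
    apply hN n hn (by linarith) j
    have h1 : (j : ℝ) ≤ 3 * k := by exact_mod_cast hj
    have h2 : K₁ * Real.log l ≤ K₁ * (2 * Real.log (Real.log z)) :=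
      mul_le_mul_of_nonneg_left hl2 hK₁
    have h3 : (6 * K₁ + 3) * Real.log (Real.log z) ≤
        (6 * K₁ + 3) * Real.log (Real.log |(n : ℝ)|) :=
      mul_le_mul_of_nonneg_left hlln (by linarith)
    linarith
  -- the binary length of `z`
  obtain ⟨b, hb⟩ : ∃ b, b = Nat.clog 2 z := ⟨_, rfl⟩
  have hzb : z ≤ 2 ^ b := by rw [hb]; exact Nat.le_pow_clog (by norm_num) z
  have hb2 : (b : ℝ) ≤ 2 * l := by
    rcases Nat.eq_zero_or_pos b with h0 | h0
    · rw [h0, Nat.cast_zero]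
      linarith
    · have h1 : 2 ^ (b - 1) < z := by
        rw [hb]
        exact Nat.pow_pred_clog_lt_self (by norm_num) (by omega)
      have h2 : (2 : ℝ) ^ (b - 1) ≤ z := by exact_mod_cast h1.le
      have h3 := Real.log_le_log (by positivity) h2
      rw [Real.log_pow, Nat.cast_sub h0, Nat.cast_one] at h3
      have h4 := Real.log_two_gt_d9
      have h5 : (1 : ℝ) ≤ b := by exact_mod_cast h0
      have h6 : ((b : ℝ) - 1) * (1 / 2) ≤ (b - 1) * Real.log 2 :=
        mul_le_mul_of_nonneg_left (by linarith) (by linarith)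
      rw [hl]
      linarith
  have hbk : (b : ℝ) ^ (8 * 1 + 4) * (4 / 5) ^ (k / 2) ≤ 1 := by
    refine le_trans ?_ hBk
    exact mul_le_mul_of_nonneg_right (pow_le_pow_left₀ (Nat.cast_nonneg _) hb2 _) (by positivity)
  have hkV' : (k : ℝ) * 3 ^ k ≤ (397 / 100) ^ k * V := by
    have h1 : (397 / 300 : ℝ) ^ k = (397 / 100) ^ k / 3 ^ k := by
      rw [← div_pow]
      norm_num
    have hlA : 0 < l ^ (A₀ + 1) := by positivity
    have h2 : k * l ^ (A₀ + 1) ≤ l ^ (A₀ + 1) * V * ((397 / 100) ^ k / 3 ^ k) := by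
      rw [← h1]
      exact hkV.trans (mul_le_mul_of_nonneg_right hV' (by positivity))
    have h3 : l ^ (A₀ + 1) * (k * 3 ^ k) ≤ l ^ (A₀ + 1) * ((397 / 100) ^ k * V) := by
      calc l ^ (A₀ + 1) * (k * 3 ^ k) = k * l ^ (A₀ + 1) * 3 ^ k := by ring
        _ ≤ l ^ (A₀ + 1) * V * ((397 / 100) ^ k / 3 ^ k) * 3 ^ k :=
            mul_le_mul_of_nonneg_right h2 (by positivity)
        _ = l ^ (A₀ + 1) * ((397 / 100) ^ k * V) := by field_simp
    exact le_of_mul_le_mul_left h3 hlA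
  -- the count
  have hcover := cover (σ := σ) x z Ω (u := u) (l := L) (I := I) (k := k) (R := R) (S := S)
    hGS hzC
  have h1 := hRes z x I k G σ Ω (fun w hw => (hGm w hw).1) (fun w hw => (hGm w hw).2.2.1) hk10
    (by omega) hzx hX6 hΩ hσ
  rw [← hVd, hG] at h1
  have h2 := hP I k R u L (by omega) (by linarith) hL0
  have e43 : Real.exp (-(L / 3)) ≤ Real.exp (-(L / 4)) := Real.exp_le_exp.2 (by linarith)
  have h3 : 1 - P (Odd_G u L I k R) + (1 / 2) ^ (k / 2) ≤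
      (2 + 2 * B) * Real.exp (-(L / 4)) := by
    have i1 : 1 / u = Real.exp (-(L / 3)) := by
      rw [hu, Real.exp_neg, one_div]
    have i2 : B * ρ ^ R ≤ B * Real.exp (-(L / 3)) := mul_le_mul_of_nonneg_left hρR hB.le
    have i3 : B * Real.exp (-(L / 2)) ≤ B * Real.exp (-(L / 3)) :=
      mul_le_mul_of_nonneg_left (Real.exp_le_exp.2 (by linarith)) hB.le
    rw [i1, hI] at h2
    rw [hI]
    have i4 : (2 + 2 * B) * Real.exp (-(L / 3)) ≤ (2 + 2 * B) * Real.exp (-(L / 4)) :=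
      mul_le_mul_of_nonneg_left e43 (by positivity)
    linarith
  have h4 : CR * x * V * (1 - P (Odd_G u L I k R) + (1 / 2) ^ (k / 2)) ≤
      CR * x * V * ((2 + 2 * B) * Real.exp (-(L / 4))) :=
    mul_le_mul_of_nonneg_left h3 (by positivity)
  have h5 : ∀ s ∈ S, (((Od σ x).filter fun n => Sf Ω z n ∧
      Hit ((W2 u I k R).filter fun w => w.sum = s) (fun _ => A') n).card : ℝ) ≤
      CS * x * V * (√(d * u / k) * ((R : ℝ) + 1) ^ (4 * 1)) := by
    intro s hs
    rw [hS, mem_filter, mem_range] at hs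
    obtain ⟨s0, s1, s2, -⟩ := hs
    have hs397 := Odd_two_pow s1
    rw [hVd]
    refine hCS I k s R b z u x d σ A' Ω (by omega) hk1 hu1 hk2R s2 (by omega) hzx hzb
      hbk hX6 hΩ ?_ hσ hd.le ?_
    · rw [← hVd]
      exact hkV'.trans (mul_le_mul_of_nonneg_right hs397 hV0)
    · apply hY₀
      refine hx4.trans ?_
      have j1 : (2 : ℝ) ^ s ≤ 2 ^ (3 * k) := pow_le_pow_right₀ (by norm_num) (by omega)
      have j2 : (2 : ℝ) ^ (3 * k) ≤ √x := by
        apply Real.le_sqrt_of_sq_le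
        rw [← pow_mul]
        have : 3 * k * 2 = 6 * k := by ring
        rw [this]
        exact hX6
      have j3 : √x * 2 ^ s ≤ 3 ^ k * x := by
        have j4 : (1 : ℝ) ≤ 3 ^ k := one_le_pow₀ (by norm_num)
        calc √x * 2 ^ s ≤ √x * √x := mul_le_mul_of_nonneg_left (j1.trans j2) (Real.sqrt_nonneg _)
          _ = x := Real.mul_self_sqrt hx0.le
          _ = 1 * x := (one_mul x).symm
          _ ≤ 3 ^ k * x := mul_le_mul_of_nonneg_right j4 hx0.le
      have j5 : √x ≤ 3 ^ k * x / 2 ^ s := by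
        rw [le_div_iff₀ (by positivity)]
        exact j3
      have j6 : (0 : ℝ) < 2 ^ k := by positivity
      linarith
  have h6 : (S.card : ℝ) ≤ 2 * (L * √k) + 1 := by
    apply Odd_card (a := 2 * k) (by positivity)
    intro s hs
    rw [hS, mem_filter] at hs
    exact hs.2.2.2
  have h8 := sum_le_card_nsmul _ _ _ h5
  rw [nsmul_eq_mul] at h8
  have hsq : √(d * u / k) = Real.exp (-(L / 3)) / √k := by
    have : d * u = Real.exp (-(L / 3)) ^ 2 := by
      rw [hdL, hu, ← Real.exp_add, ← Real.exp_nat_mul]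
      congr 1
      push_cast
      ring
    rw [this, Real.sqrt_div (by positivity), Real.sqrt_sq (Real.exp_pos _).le]
  have h7 : (2 * (L * √k) + 1) * (√(d * u / k) * ((R : ℝ) + 1) ^ (4 * 1)) ≤
      2 * (a + 2) ^ 4 * CL * Real.exp (-(L / 4)) := by
    rw [hsq]
    have i1 : (2 * (L * √k) + 1) * (Real.exp (-(L / 3)) / √k) ≤
        (2 * L + 1) * Real.exp (-(L / 3)) := by
      rw [mul_div_assoc', div_le_iff₀ (by positivity)]
      have i2 : 2 * (L * √k) + 1 ≤ (2 * L + 1) * √k := by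
        have i2' : (2 * L + 1) * √(k : ℝ) = 2 * (L * √k) + √k := by ring
        rw [i2']
        linarith
      calc (2 * (L * √k) + 1) * Real.exp (-(L / 3)) ≤
          ((2 * L + 1) * √k) * Real.exp (-(L / 3)) :=
            mul_le_mul_of_nonneg_right i2 (Real.exp_pos _).le
        _ = (2 * L + 1) * Real.exp (-(L / 3)) * √k := by ring
    have i3 : (R : ℝ) + 1 ≤ (a + 2) * (L + 1) := by
      have i3' : (a + 2) * (L + 1) = a * L + a + 2 * L + 2 := by ring
      rw [i3']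
      linarith
    have i4 : ((R : ℝ) + 1) ^ (4 * 1) ≤ ((a + 2) * (L + 1)) ^ (4 * 1) :=
      pow_le_pow_left₀ (by positivity) i3 _
    have i5 : (L + 1) ^ 5 ≤ CL * Real.exp (L / 12) := by
      have i6 := hlog (Real.exp L) (Real.one_le_exp hL0)
      rw [Real.log_exp, ← Real.exp_mul] at i6
      have i7 : L * (1 / 12) = L / 12 := by ring
      rw [i7] at i6
      exact i6
    have i8 : Real.exp (L / 12) * Real.exp (-(L / 3)) = Real.exp (-(L / 4)) := by
      rw [← Real.exp_add]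
      congr 1
      ring
    calc (2 * (L * √k) + 1) * (Real.exp (-(L / 3)) / √k * ((R : ℝ) + 1) ^ (4 * 1))
        = (2 * (L * √k) + 1) * (Real.exp (-(L / 3)) / √k) * ((R : ℝ) + 1) ^ (4 * 1) := by ring
      _ ≤ (2 * L + 1) * Real.exp (-(L / 3)) * ((a + 2) * (L + 1)) ^ (4 * 1) :=
          mul_le_mul i1 i4 (by positivity) (by positivity)
      _ ≤ (2 * (L + 1)) * Real.exp (-(L / 3)) * ((a + 2) * (L + 1)) ^ (4 * 1) := by
          apply mul_le_mul_of_nonneg_right _ (by positivity)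
          apply mul_le_mul_of_nonneg_right _ (Real.exp_pos _).le
          linarith
      _ = 2 * (a + 2) ^ 4 * (L + 1) ^ 5 * Real.exp (-(L / 3)) := by ring
      _ ≤ 2 * (a + 2) ^ 4 * (CL * Real.exp (L / 12)) * Real.exp (-(L / 3)) := by
          apply mul_le_mul_of_nonneg_right _ (Real.exp_pos _).le
          exact mul_le_mul_of_nonneg_left i5 (by positivity)
      _ = 2 * (a + 2) ^ 4 * CL * (Real.exp (L / 12) * Real.exp (-(L / 3))) := by ring
      _ = 2 * (a + 2) ^ 4 * CL * Real.exp (-(L / 4)) := by rw [i8]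
  have h9 : (S.card : ℝ) * (CS * x * V * (√(d * u / k) * ((R : ℝ) + 1) ^ (4 * 1))) ≤
      CS * x * V * (2 * (a + 2) ^ 4 * CL * Real.exp (-(L / 4))) := by
    calc (S.card : ℝ) * (CS * x * V * (√(d * u / k) * ((R : ℝ) + 1) ^ (4 * 1))) ≤
        (2 * (L * √k) + 1) * (CS * x * V * (√(d * u / k) * ((R : ℝ) + 1) ^ (4 * 1))) :=
          mul_le_mul_of_nonneg_right h6 (by positivity)
      _ = CS * x * V * ((2 * (L * √k) + 1) * (√(d * u / k) * ((R : ℝ) + 1) ^ (4 * 1))) := by ring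
      _ ≤ _ := mul_le_mul_of_nonneg_left h7 (by positivity)
  have h10 : (((Od σ x).filter fun n => Sf Ω z n ∧ n ∈ A ∧ (z : ℤ) ≤ |n|).card : ℝ) ≤
      x * V * (E * Real.exp (-(L / 4))) := by
    have h11 : x * V * (E * Real.exp (-(L / 4))) =
        CR * x * V * ((2 + 2 * B) * Real.exp (-(L / 4))) +
        CS * x * V * (2 * (a + 2) ^ 4 * CL * Real.exp (-(L / 4))) := by
      rw [hE]
      ring
    rw [h11]
    linarith
  -- from the primes to the odd integers
  have h12 : {p : ℕ | p.Prime ∧ (p : ℝ) ≤ x ∧ σ * (p : ℤ) ∈ A} ⊆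
      ((range z ∪ ((Od σ x).filter fun n => Sf Ω z n ∧ n ∈ A ∧ (z : ℤ) ≤ |n|).image
        Int.natAbs : Finset ℕ) : Set ℕ) := by
    rintro p ⟨hp, hpx, hpA⟩
    rw [mem_coe, mem_union, mem_range, mem_image]
    rcases lt_or_ge p z with hpz | hpz
    · exact Or.inl hpz
    · right
      have hp2 : p % 2 = 1 := by
        rcases hp.eq_two_or_odd with h | h
        · omega
        · exact h
      have habs : (σ * (p : ℤ)).natAbs = p := by
        rcases hσ with h | h <;> rw [h] <;> simp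
      have habs2 : |σ * (p : ℤ)| = p := by
        rcases hσ with h | h <;> rw [h] <;> simp
      refine ⟨σ * (p : ℤ), ?_, habs⟩
      rw [mem_filter, mem_Od hσ]
      have hσσ : σ * (σ * (p : ℤ)) = p := by rw [← mul_assoc, sig_sq hσ, one_mul]
      refine ⟨⟨?_, ?_, ?_⟩, ?_, hpA, ?_⟩
      · rcases hσ with h | h <;> rw [h] <;> omega
      · rw [hσσ]
        exact_mod_cast hp.pos
      · rw [hσσ]
        exact_mod_cast hpx
      · rw [hΩd]
        apply Collatz3.PR.prime_Sf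
        · rw [habs]
          exact hp
        · rw [habs]
          exact hpz
      · rw [habs2]
        exact_mod_cast hpz
  have h13 := Set.ncard_le_ncard h12 (Finset.finite_toSet _)
  rw [Set.ncard_coe_finset] at h13
  have h14 := h13.trans ((card_union_le _ _).trans (Nat.add_le_add_left card_image_le _))
  rw [card_range] at h14
  have h15 : (Set.ncard {p : ℕ | p.Prime ∧ (p : ℝ) ≤ x ∧ σ * (p : ℤ) ∈ A} : ℝ) ≤
      z + (((Od σ x).filter fun n => Sf Ω z n ∧ n ∈ A ∧ (z : ℤ) ≤ |n|).card : ℝ) := by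
    exact_mod_cast h14
  have h16 : (z : ℝ) ≤ d ^ (1 / 4 : ℝ) * (x / Real.log x) := by
    refine hzs.trans ?_
    rw [← mul_div_assoc, le_div_iff₀ hlx]
    calc √x * Real.log x ≤ √x * (d ^ (1 / 4 : ℝ) * √x) :=
          mul_le_mul_of_nonneg_left hx5 (Real.sqrt_nonneg _)
      _ = d ^ (1 / 4 : ℝ) * (√x * √x) := by ring
      _ = d ^ (1 / 4 : ℝ) * x := by rw [Real.mul_self_sqrt hx0.le]
  have h17 : x * V * (E * Real.exp (-(L / 4))) ≤
      3 * E * d ^ (1 / 4 : ℝ) * (x / Real.log x) := by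
    rw [hd4]
    have h18 : V ≤ 3 / Real.log x := by
      refine hVle.trans ?_
      rw [div_le_div_iff₀ hlz hlx]
      linarith
    calc x * V * (E * Real.exp (-(L / 4))) ≤ x * (3 / Real.log x) * (E * Real.exp (-(L / 4))) := by
          apply mul_le_mul_of_nonneg_right _ (by positivity)
          exact mul_le_mul_of_nonneg_left h18 hx0.le
      _ = 3 * E * Real.exp (-(L / 4)) * (x / Real.log x) := by ring
  have h19 : (1 + 3 * E) * d ^ (1 / 4 : ℝ) * (x / Real.log x) =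
      d ^ (1 / 4 : ℝ) * (x / Real.log x) + 3 * E * d ^ (1 / 4 : ℝ) * (x / Real.log x) := by ring
  rw [h19]
  linarith

end Pool.Agent.Helper15.PT
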