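import Mathlib
import Pool.Agent.Helper15.PT.Transfer
import Pool.Agent.Helper15.PT.Stab
import Pool.Agent.Collatz3.FWCltFin

set_option autoImplicit false

/-!
# Passage times of primes, module Law
-/

namespace Pool.Agent.Helper15.PT

open Filter Topology ProbabilityTheory
open Pool.Agent.Collatz3.FW (Tn iter_cast Phi Phi_neg Phi_far Phi_right Phi_nonneg Phi_le_one
  hitting_clt Od mem_Od)
open Pool.Agent.Helper14 (T)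

/-- The normalised hitting time. -/
noncomputable def rt (n k : ℕ) : ℝ := ((k : ℝ) - gm * Real.log n) / √(vr * Real.log n)

/-- `J'` is a stable enlargement of `J`. -/
def Enl (F : Finset ℕ) (J J' : Set ℝ) : Prop := ∀ K : ℝ, ∃ N : ℝ, ∀ n : ℕ, N ≤ n → ∀ j : ℕ,
  (j : ℝ) ≤ K * Real.log (Real.log n) → 2 ≤ Tn^[j] n ∧ ∀ k : ℕ, Fst F n k → rt n k ∈ J →
  Fst F (Tn^[j] n) (k - j) ∧ rt (Tn^[j] n) (k - j) ∈ J'

open Classical in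
/-- The transfer to the primes. -/
theorem primes_of_all : ∃ C : ℝ, 0 < C ∧ ∀ (F : Finset ℕ) (J J' : Set ℝ) (d : ℝ), 0 < d → d ≤ 1 →
    Enl F J J' →
    (∀ᶠ x : ℕ in atTop, ({n : ℕ | 2 ≤ n ∧ n ≤ x ∧ ∃ k, Fst F n k ∧ rt n k ∈ J'}.ncard : ℝ) ≤
      d * x) →
    ∀ᶠ x : ℝ in atTop,
      (Set.ncard {p : ℕ | p.Prime ∧ (p : ℝ) ≤ x ∧ ∃ k, Fst F p k ∧ rt p k ∈ J} : ℝ) ≤
        C * d ^ (1 / 4 : ℝ) * (x / Real.log x) := by
  obtain ⟨C, hC, h⟩ := transfer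
  refine ⟨C, hC, fun F J J' d hd hd1 hE hcnt => ?_⟩
  obtain ⟨A, hA⟩ : ∃ A : Set ℤ, A = {z : ℤ | 0 < z ∧ ∃ k, Fst F z.toNat k ∧ rt z.toNat k ∈ J} :=
    ⟨_, rfl⟩
  obtain ⟨A', hA'⟩ : ∃ A' : Set ℤ, A' = {z : ℤ | 2 ≤ z ∧ ∃ k, Fst F z.toNat k ∧
    rt z.toNat k ∈ J'} := ⟨_, rfl⟩
  have h1 := h A A' 1 d (Or.inl rfl) hd hd1 ?_ ?_
  · filter_upwards [h1] with x hx
    refine le_trans (le_of_eq ?_) hx
    congr 2
    ext p
    simp only [Set.mem_ofPred_eq, one_mul, hA, Int.toNat_natCast]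
    constructor
    · rintro ⟨h2, h3, h4⟩
      exact ⟨h2, h3, by exact_mod_cast h2.pos, h4⟩
    · rintro ⟨h2, h3, -, h4⟩
      exact ⟨h2, h3, h4⟩
  · intro K
    obtain ⟨N, hN⟩ := hE K
    refine ⟨N, ?_⟩
    intro n hn hNn j hj
    rw [hA] at hn
    obtain ⟨h2, k, h3, h4⟩ := hn
    obtain ⟨m, rfl⟩ : ∃ m : ℕ, n = m := ⟨n.toNat, (Int.toNat_of_nonneg h2.le).symm⟩
    rw [Int.toNat_natCast] at h3 h4
    have e1 : |(((m : ℕ) : ℤ) : ℝ)| = (m : ℝ) := by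
      rw [Int.cast_natCast, Nat.abs_cast]
    rw [e1] at hNn hj
    obtain ⟨h5, h6⟩ := hN m hNn j hj
    rw [hA', iter_cast]
    refine ⟨by exact_mod_cast h5, k - j, ?_⟩
    rw [Int.toNat_natCast]
    exact h6 k h3 h4
  · have hfl : Tendsto (fun Y : ℝ => ⌊Y⌋₊) atTop atTop := tendsto_nat_floor_atTop
    filter_upwards [hfl.eventually hcnt, eventually_ge_atTop 0] with Y hY hY0
    have h2 : (((Od 1 Y).filter fun b => b ∈ A') : Finset ℤ).card ≤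
        {n : ℕ | 2 ≤ n ∧ n ≤ ⌊Y⌋₊ ∧ ∃ k, Fst F n k ∧ rt n k ∈ J'}.ncard := by
      have hfin : {n : ℕ | 2 ≤ n ∧ n ≤ ⌊Y⌋₊ ∧ ∃ k, Fst F n k ∧ rt n k ∈ J'}.Finite :=
        (Set.finite_Icc 2 ⌊Y⌋₊).subset fun n hn => ⟨hn.1, hn.2.1⟩
      have h3 : ((((Od 1 Y).filter fun b => b ∈ A') : Finset ℤ) : Set ℤ) ⊆
          (fun n : ℕ => (n : ℤ)) ''
            {n : ℕ | 2 ≤ n ∧ n ≤ ⌊Y⌋₊ ∧ ∃ k, Fst F n k ∧ rt n k ∈ J'} := by
        intro b hb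
        rw [Finset.mem_coe, Finset.mem_filter, mem_Od (Or.inl rfl), hA'] at hb
        obtain ⟨⟨h4, h5, h6⟩, h7, h8⟩ := hb
        rw [one_mul] at h5 h6
        refine ⟨b.toNat, ⟨by omega, ?_, h8⟩, Int.toNat_of_nonneg h5.le⟩
        apply Nat.le_floor
        have h9 : ((b.toNat : ℤ) : ℝ) = (b : ℝ) := by rw [Int.toNat_of_nonneg h5.le]
        rw [Int.cast_natCast] at h9
        rw [h9]
        exact h6
      have h4 := Set.ncard_le_ncard h3 (hfin.image _)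
      rw [Set.ncard_coe_finset] at h4
      exact h4.trans (Set.ncard_image_le hfin)
    have h3 : ((((Od 1 Y).filter fun b => b ∈ A') : Finset ℤ).card : ℝ) ≤
        ({n : ℕ | 2 ≤ n ∧ n ≤ ⌊Y⌋₊ ∧ ∃ k, Fst F n k ∧ rt n k ∈ J'}.ncard : ℝ) := by
      exact_mod_cast h2
    refine h3.trans (hY.trans ?_)
    exact mul_le_mul_of_nonneg_left (Nat.floor_le hY0) hd.le

theorem rt_le {n k : ℕ} (hn : 0 < Real.log n) {y : ℝ} :
    rt n k ≤ y ↔ (k : ℝ) - gm * Real.log n ≤ y * √(vr * Real.log n) := by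
  unfold rt
  rw [div_le_iff₀ (Real.sqrt_pos.2 (mul_pos vr_pos hn))]

theorem lt_rt {n k : ℕ} (hn : 0 < Real.log n) {y : ℝ} :
    y < rt n k ↔ y * √(vr * Real.log n) < (k : ℝ) - gm * Real.log n := by
  unfold rt
  rw [lt_div_iff₀ (Real.sqrt_pos.2 (mul_pos vr_pos hn))]

/-- The two sided statement. -/
theorem enl_aux (F : Finset ℕ) (y y' η K : ℝ) (hη : 0 < η) : ∃ N : ℝ, ∀ n : ℕ, N ≤ n → ∀ j : ℕ,
    (j : ℝ) ≤ K * Real.log (Real.log n) → 2 ≤ Tn^[j] n ∧ ∀ k : ℕ, Fst F n k →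
    Fst F (Tn^[j] n) (k - j) ∧ (rt n k ≤ y' → rt (Tn^[j] n) (k - j) ≤ y' + η) ∧
    (y < rt n k → y - η < rt (Tn^[j] n) (k - j)) := by
  obtain ⟨N₁, h1⟩ := stab F y η K hη
  obtain ⟨N₂, h2⟩ := stab F y' η K hη
  refine ⟨max N₁ N₂, fun n hn j hj => ?_⟩
  obtain ⟨a1, a2, a3, a4⟩ := h1 n ((le_max_left _ _).trans hn) j hj
  obtain ⟨-, -, -, b4⟩ := h2 n ((le_max_right _ _).trans hn) j hj
  refine ⟨?_, fun k hk => ?_⟩
  · by_contra hcon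
    have h3 : Tn^[j] n = 1 := by omega
    rw [h3] at a2
    simp at a2
    linarith
  · obtain ⟨a5, a6, -, a8⟩ := a4 k hk
    obtain ⟨-, -, b7, -⟩ := b4 k hk
    refine ⟨a6, ?_, ?_⟩
    · rw [rt_le (by linarith), rt_le (by linarith)]
      exact b7
    · rw [lt_rt (by linarith), lt_rt (by linarith)]
      exact a8

theorem enl_Ioc (F : Finset ℕ) (y y' η : ℝ) (hη : 0 < η) :
    Enl F (Set.Ioc y y') (Set.Ioc (y - η) (y' + η)) := by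
  intro K
  obtain ⟨N, hN⟩ := enl_aux F y y' η K hη
  refine ⟨N, fun n hn j hj => ?_⟩
  obtain ⟨h1, h2⟩ := hN n hn j hj
  refine ⟨h1, fun k hk hr => ?_⟩
  obtain ⟨h3, h4, h5⟩ := h2 k hk
  exact ⟨h3, h5 hr.1, h4 hr.2⟩

theorem enl_Iic (F : Finset ℕ) (y' η : ℝ) (hη : 0 < η) :
    Enl F (Set.Iic y') (Set.Iic (y' + η)) := by
  intro K
  obtain ⟨N, hN⟩ := enl_aux F 0 y' η K hη
  refine ⟨N, fun n hn j hj => ?_⟩
  obtain ⟨h1, h2⟩ := hN n hn j hj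
  refine ⟨h1, fun k hk hr => ?_⟩
  obtain ⟨h3, h4, h5⟩ := h2 k hk
  exact ⟨h3, h4 hr⟩

theorem enl_Ioi (F : Finset ℕ) (y η : ℝ) (hη : 0 < η) :
    Enl F (Set.Ioi y) (Set.Ioi (y - η)) := by
  intro K
  obtain ⟨N, hN⟩ := enl_aux F y 0 η K hη
  refine ⟨N, fun n hn j hj => ?_⟩
  obtain ⟨h1, h2⟩ := hN n hn j hj
  refine ⟨h1, fun k hk hr => ?_⟩
  obtain ⟨h3, h4, h5⟩ := h2 k hk
  exact ⟨h3, h5 hr⟩

/-- The integers with a hitting time, and those with a hitting time at most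
`gm log n + y √(vr log n)`. -/
theorem clt : ∃ d : Finset ℕ → ℝ, ∀ F : Finset ℕ, 0 ≤ d F ∧ d F ≤ 1 ∧
    Tendsto (fun x : ℕ => ({n : ℕ | 1 ≤ n ∧ n ≤ x ∧ ∃ k, Fst F n k}.ncard : ℝ) / x) atTop
      (𝓝 (d F)) ∧
    ∀ y : ℝ, Tendsto (fun x : ℕ => ({n : ℕ | 1 ≤ n ∧ n ≤ x ∧ ∃ k, Fst F n k ∧
      (k : ℝ) - gm * Real.log n ≤ y * √(vr * Real.log n)}.ncard : ℝ) / x) atTop
      (𝓝 (d F * Phi y)) := by
  obtain ⟨c, hc, d, h1, -, -, h4⟩ := hitting_clt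
  refine ⟨d, fun F => ?_⟩
  have h0 : ∀ x : ℕ, (0 : ℝ) ≤ ({n : ℕ | 1 ≤ n ∧ n ≤ x ∧ ∃ k : ℕ, Tn^[k] n ∈ F}.ncard : ℝ) / x :=
    fun x => by positivity
  have h5 : ∀ x : ℕ, ({n : ℕ | 1 ≤ n ∧ n ≤ x ∧ ∃ k : ℕ, Tn^[k] n ∈ F}.ncard : ℝ) / x ≤ 1 := by
    intro x
    apply div_le_one_of_le₀ _ (Nat.cast_nonneg x)
    have h6 : {n : ℕ | 1 ≤ n ∧ n ≤ x ∧ ∃ k : ℕ, Tn^[k] n ∈ F} ⊆ ((Finset.Icc 1 x : Finset ℕ) :
        Set ℕ) := by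
      rintro n ⟨h7, h8, -⟩
      rw [Finset.mem_coe, Finset.mem_Icc]
      exact ⟨h7, h8⟩
    have h7 := Set.ncard_le_ncard h6 (Finset.finite_toSet _)
    rw [Set.ncard_coe_finset, Nat.card_Icc, Nat.add_sub_cancel] at h7
    exact_mod_cast h7
  refine ⟨ge_of_tendsto' (h1 F) h0, le_of_tendsto' (h1 F) h5, ?_, ?_⟩
  · refine (h1 F).congr fun x => ?_
    congr 3
    ext n
    simp only [Set.mem_ofPred_eq]
    constructor
    · rintro ⟨h7, h8, h9⟩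
      exact ⟨h7, h8, Fst_exists h9⟩
    · rintro ⟨h7, h8, k, h9⟩
      exact ⟨h7, h8, k, h9.1⟩
  · intro y
    refine (h4 F y).congr fun x => ?_
    congr 3
    ext n
    simp only [Set.mem_ofPred_eq]
    unfold gm vr Fst
    constructor
    · rintro ⟨h7, h8, k, h9, h10, h11⟩
      exact ⟨h7, h8, k, ⟨h9, h10⟩, by linarith⟩
    · rintro ⟨h7, h8, k, ⟨h9, h10⟩, h11⟩
      exact ⟨h7, h8, k, h9, h10, by linarith⟩

/-- Sets with a finite number of elements up to `x`. -/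
theorem fin_le (x : ℕ) (P : ℕ → Prop) : {n : ℕ | 1 ≤ n ∧ n ≤ x ∧ P n}.Finite :=
  (Set.finite_Icc 1 x).subset fun n hn => ⟨hn.1, hn.2.1⟩

theorem dens_Iic (F : Finset ℕ) (y q : ℝ) (hq : Phi y < q) :
    ∀ᶠ x : ℕ in atTop, ({n : ℕ | 2 ≤ n ∧ n ≤ x ∧ ∃ k, Fst F n k ∧ rt n k ∈ Set.Iic y}.ncard : ℝ) ≤
      q * x := by
  obtain ⟨d, hd⟩ := clt
  obtain ⟨d0, d1, -, d3⟩ := hd F
  have h1 : d F * Phi y < q :=
    lt_of_le_of_lt (mul_le_of_le_one_left (Phi_nonneg y) d1) hq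
  filter_upwards [(d3 y).eventually_lt_const h1, eventually_gt_atTop 0] with x hx hx0
  rw [div_lt_iff₀ (by exact_mod_cast hx0)] at hx
  refine le_trans ?_ hx.le
  have h2 : {n : ℕ | 2 ≤ n ∧ n ≤ x ∧ ∃ k, Fst F n k ∧ rt n k ∈ Set.Iic y} ⊆
      {n : ℕ | 1 ≤ n ∧ n ≤ x ∧ ∃ k, Fst F n k ∧
      (k : ℝ) - gm * Real.log n ≤ y * √(vr * Real.log n)} := by
    rintro n ⟨h3, h4, k, h5, h6⟩
    refine ⟨by omega, h4, k, h5, ?_⟩
    rwa [← rt_le (Real.log_pos (by exact_mod_cast h3))]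
  exact_mod_cast Set.ncard_le_ncard h2 (fin_le x _)

theorem dens_Ioi (F : Finset ℕ) (y q : ℝ) (hq : 1 - Phi y < q) :
    ∀ᶠ x : ℕ in atTop, ({n : ℕ | 2 ≤ n ∧ n ≤ x ∧ ∃ k, Fst F n k ∧ rt n k ∈ Set.Ioi y}.ncard : ℝ) ≤
      q * x := by
  obtain ⟨d, hd⟩ := clt
  obtain ⟨d0, d1, d2, d3⟩ := hd F
  have h1 : d F - d F * Phi y < q := by
    have h2 : d F * (1 - Phi y) ≤ 1 - Phi y :=
      mul_le_of_le_one_left (by linarith [Phi_le_one y]) d1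
    linarith
  filter_upwards [(d2.sub (d3 y)).eventually_lt_const h1, eventually_gt_atTop 0] with x hx hx0
  rw [← sub_div, div_lt_iff₀ (by exact_mod_cast hx0)] at hx
  refine le_trans ?_ hx.le
  obtain ⟨S, hS⟩ : ∃ S : Set ℕ, S = {n : ℕ | 1 ≤ n ∧ n ≤ x ∧ ∃ k, Fst F n k ∧
      (k : ℝ) - gm * Real.log n ≤ y * √(vr * Real.log n)} := ⟨_, rfl⟩
  obtain ⟨R, hR⟩ : ∃ R : Set ℕ, R = {n : ℕ | 1 ≤ n ∧ n ≤ x ∧ ∃ k, Fst F n k} := ⟨_, rfl⟩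
  rw [← hS, ← hR]
  have hRf : R.Finite := by rw [hR]; exact fin_le x _
  have hSR : S ⊆ R := by
    rw [hS, hR]
    rintro n ⟨h3, h4, k, h5, -⟩
    exact ⟨h3, h4, k, h5⟩
  have h2 : {n : ℕ | 2 ≤ n ∧ n ≤ x ∧ ∃ k, Fst F n k ∧ rt n k ∈ Set.Ioi y} ⊆ R \ S := by
    rintro n ⟨h3, h4, k, h5, h6⟩
    rw [hR, hS]
    refine ⟨⟨by omega, h4, k, h5⟩, ?_⟩
    rintro ⟨-, -, k', h7, h8⟩
    have h9 := Fst_unique h5 h7
    subst h9
    rw [Set.mem_Ioi, lt_rt (Real.log_pos (by exact_mod_cast h3))] at h6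
    linarith
  have h3 := Set.ncard_le_ncard h2 (hRf.subset Set.sdiff_subset)
  have h4 := Set.ncard_sdiff_add_ncard_of_subset hSR hRf
  have h5 : ({n : ℕ | 2 ≤ n ∧ n ≤ x ∧ ∃ k, Fst F n k ∧ rt n k ∈ Set.Ioi y}.ncard : ℝ) ≤
      ((R \ S).ncard : ℝ) := by exact_mod_cast h3
  have h6 : ((R \ S).ncard : ℝ) + (S.ncard : ℝ) = (R.ncard : ℝ) := by exact_mod_cast h4
  linarith

theorem dens_Ioc (F : Finset ℕ) (y y' q : ℝ) (hyy : y ≤ y') (hq : Phi y' - Phi y < q) :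
    ∀ᶠ x : ℕ in atTop,
      ({n : ℕ | 2 ≤ n ∧ n ≤ x ∧ ∃ k, Fst F n k ∧ rt n k ∈ Set.Ioc y y'}.ncard : ℝ) ≤ q * x := by
  obtain ⟨d, hd⟩ := clt
  obtain ⟨d0, d1, -, d3⟩ := hd F
  have hmono : Phi y ≤ Phi y' := by
    unfold Phi
    exact MeasureTheory.measureReal_mono (Set.Iic_subset_Iic.2 hyy)
  have h1 : d F * Phi y' - d F * Phi y < q := by
    have h2 : d F * (Phi y' - Phi y) ≤ Phi y' - Phi y :=
      mul_le_of_le_one_left (by linarith) d1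
    linarith
  filter_upwards [((d3 y').sub (d3 y)).eventually_lt_const h1, eventually_gt_atTop 0]
    with x hx hx0
  rw [← sub_div, div_lt_iff₀ (by exact_mod_cast hx0)] at hx
  refine le_trans ?_ hx.le
  obtain ⟨S, hS⟩ : ∃ S : Set ℕ, S = {n : ℕ | 1 ≤ n ∧ n ≤ x ∧ ∃ k, Fst F n k ∧
      (k : ℝ) - gm * Real.log n ≤ y * √(vr * Real.log n)} := ⟨_, rfl⟩
  obtain ⟨R, hR⟩ : ∃ R : Set ℕ, R = {n : ℕ | 1 ≤ n ∧ n ≤ x ∧ ∃ k, Fst F n k ∧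
      (k : ℝ) - gm * Real.log n ≤ y' * √(vr * Real.log n)} := ⟨_, rfl⟩
  rw [← hS, ← hR]
  have hRf : R.Finite := by rw [hR]; exact fin_le x _
  have hSR : S ⊆ R := by
    rw [hS, hR]
    rintro n ⟨h3, h4, k, h5, h6⟩
    exact ⟨h3, h4, k, h5, h6.trans (mul_le_mul_of_nonneg_right hyy (Real.sqrt_nonneg _))⟩
  have h2 : {n : ℕ | 2 ≤ n ∧ n ≤ x ∧ ∃ k, Fst F n k ∧ rt n k ∈ Set.Ioc y y'} ⊆ R \ S := by
    rintro n ⟨h3, h4, k, h5, h6⟩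
    have hl : 0 < Real.log n := Real.log_pos (by exact_mod_cast h3)
    rw [hR, hS]
    refine ⟨⟨by omega, h4, k, h5, (rt_le hl).1 h6.2⟩, ?_⟩
    rintro ⟨-, -, k', h7, h8⟩
    have h9 := Fst_unique h5 h7
    subst h9
    have h10 := (lt_rt hl).1 h6.1
    linarith
  have h3 := Set.ncard_le_ncard h2 (hRf.subset Set.sdiff_subset)
  have h4 := Set.ncard_sdiff_add_ncard_of_subset hSR hRf
  have h5 : ({n : ℕ | 2 ≤ n ∧ n ≤ x ∧ ∃ k, Fst F n k ∧ rt n k ∈ Set.Ioc y y'}.ncard : ℝ) ≤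
      ((R \ S).ncard : ℝ) := by exact_mod_cast h3
  have h6 : ((R \ S).ncard : ℝ) + (S.ncard : ℝ) = (R.ncard : ℝ) := by exact_mod_cast h4
  linarith

theorem Phi_left {y ε : ℝ} (hε : 0 < ε) : ∃ δ : ℝ, 0 < δ ∧ Phi y - ε ≤ Phi (y - δ) := by
  obtain ⟨δ, hδ, h⟩ := Phi_right (y := -y) hε
  refine ⟨δ, hδ, ?_⟩
  have h1 : Phi (-y + δ) = 1 - Phi (y - δ) := by
    rw [← Phi_neg]
    congr 1
    ring
  rw [h1, Phi_neg] at h
  linarith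

theorem Phi_mono {y y' : ℝ} (h : y ≤ y') : Phi y ≤ Phi y' := by
  unfold Phi
  exact MeasureTheory.measureReal_mono (Set.Iic_subset_Iic.2 h)

theorem gauss_pos {J : Set ℝ} {y y' : ℝ} (h : y < y') (hJ : Set.Ioo y y' ⊆ J) :
    0 < (gaussianReal 0 1).real J := by
  have h1 : (gaussianReal 0 1) J ≠ 0 := by
    intro h0
    have h2 := MeasureTheory.measure_mono_null hJ h0
    have h3 := gaussianReal_absolutelyContinuous' 0 (v := 1) (by norm_num) h2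
    rw [Real.volume_Ioo, ENNReal.ofReal_eq_zero] at h3
    linarith
  exact ENNReal.toReal_pos h1 (MeasureTheory.measure_ne_top _ _)

theorem gauss_Ioc {y y' : ℝ} (h : y ≤ y') :
    (gaussianReal 0 1).real (Set.Ioc y y') = Phi y' - Phi y := by
  unfold Phi
  have h1 : Set.Ioc y y' = Set.Iic y' \ Set.Iic y := by
    ext t
    simp only [Set.mem_Ioc, Set.mem_sdiff, Set.mem_Iic, not_le]
    exact ⟨fun h => ⟨h.2, h.1⟩, fun h => ⟨h.2, h.1⟩⟩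
  rw [h1, MeasureTheory.measureReal_sdiff (Set.Iic_subset_Iic.2 h) measurableSet_Iic]

theorem gauss_Ioi (y : ℝ) : (gaussianReal 0 1).real (Set.Ioi y) = 1 - Phi y := by
  unfold Phi
  rw [← Set.compl_Iic, MeasureTheory.probReal_compl_eq_one_sub measurableSet_Iic]

end Pool.Agent.Helper15.PT
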