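import Mathlib
import Pool.Agent.Helper15.PT.Law

set_option autoImplicit false

/-!
# Passage times of primes, module Main
-/

namespace Pool.Agent.Helper15.PT

open Filter Topology ProbabilityTheory
open Pool.Agent.Collatz3.FW (Tn iter_cast Phi Phi_neg Phi_far Phi_right Phi_nonneg Phi_le_one
  hitting_clt Od mem_Od)

/-- The number of primes `p ≤ x` with a hitting time `k` of `F` such that `rt p k ∈ J`. -/
noncomputable def pc (F : Finset ℕ) (J : Set ℝ) (x : ℝ) : ℝ :=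
  (Set.ncard {p : ℕ | p.Prime ∧ (p : ℝ) ≤ x ∧ ∃ k, Fst F p k ∧ rt p k ∈ J} : ℝ)

theorem pc_fin (F : Finset ℕ) (J : Set ℝ) (x : ℝ) :
    {p : ℕ | p.Prime ∧ (p : ℝ) ≤ x ∧ ∃ k, Fst F p k ∧ rt p k ∈ J}.Finite := by
  refine (Set.finite_Iic ⌊x⌋₊).subset ?_
  rintro p ⟨_, hp, _⟩
  exact Nat.le_floor hp

/-- The trivial bound for the number of integers. -/
theorem triv (F : Finset ℕ) (J : Set ℝ) (x : ℕ) :
    ({n : ℕ | 2 ≤ n ∧ n ≤ x ∧ ∃ k, Fst F n k ∧ rt n k ∈ J}.ncard : ℝ) ≤ 1 * x := by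
  have h6 : {n : ℕ | 2 ≤ n ∧ n ≤ x ∧ ∃ k, Fst F n k ∧ rt n k ∈ J} ⊆
      ((Finset.Icc 1 x : Finset ℕ) : Set ℕ) := by
    rintro n ⟨h7, h8, -⟩
    rw [Finset.mem_coe, Finset.mem_Icc]
    exact ⟨by omega, h8⟩
  have h7 := Set.ncard_le_ncard h6 (Finset.finite_toSet _)
  rw [Set.ncard_coe_finset, Nat.card_Icc, Nat.add_sub_cancel] at h7
  rw [one_mul]
  exact_mod_cast h7

/-- From `d` to the measure. -/
theorem law_aux : ∃ C : ℝ, 0 < C ∧ ∀ (F : Finset ℕ) (J : Set ℝ) (q : ℝ), 0 < q →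
    (∃ J', Enl F J J' ∧ ∀ᶠ x : ℕ in atTop,
      ({n : ℕ | 2 ≤ n ∧ n ≤ x ∧ ∃ k, Fst F n k ∧ rt n k ∈ J'}.ncard : ℝ) ≤ 2 * q * x) →
    ∀ᶠ x : ℝ in atTop, pc F J x ≤ C * q ^ (1 / 4 : ℝ) * (x / Real.log x) := by
  obtain ⟨C, hC, h⟩ := primes_of_all
  refine ⟨C * 2 ^ (1 / 4 : ℝ), by positivity, fun F J q hq hJ => ?_⟩
  obtain ⟨J', hE, hJ'⟩ := hJ
  have e1 : C * 2 ^ (1 / 4 : ℝ) * q ^ (1 / 4 : ℝ) = C * (2 * q) ^ (1 / 4 : ℝ) := by
    rw [Real.mul_rpow (by norm_num) hq.le]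
    ring
  rw [e1]
  rcases le_or_gt (2 * q) 1 with h1 | h1
  · exact h F J J' (2 * q) (by positivity) h1 hE hJ'
  · have h2 := h F J J' 1 one_pos le_rfl hE (Eventually.of_forall fun x => triv F J' x)
    filter_upwards [h2, eventually_gt_atTop 1] with x hx hx1
    refine le_trans hx ?_
    have h3 : 0 < x / Real.log x := div_pos (by linarith) (Real.log_pos hx1)
    apply mul_le_mul_of_nonneg_right _ h3.le
    apply mul_le_mul_of_nonneg_left _ hC.le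
    exact Real.rpow_le_rpow (by norm_num) h1.le (by norm_num)

/-- The half open intervals. -/
def Itv (J : Set ℝ) : Prop :=
  (∃ y y' : ℝ, y < y' ∧ J = Set.Ioc y y') ∨ (∃ y : ℝ, J = Set.Iic y) ∨ ∃ y : ℝ, J = Set.Ioi y

/-- One interval. -/
theorem piece (F : Finset ℕ) (J : Set ℝ) (hJ : Itv J) : MeasurableSet J ∧
    0 < (gaussianReal 0 1).real J ∧ ∃ J', Enl F J J' ∧ ∀ᶠ x : ℕ in atTop,
      ({n : ℕ | 2 ≤ n ∧ n ≤ x ∧ ∃ k, Fst F n k ∧ rt n k ∈ J'}.ncard : ℝ) ≤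
        2 * (gaussianReal 0 1).real J * x := by
  rcases hJ with ⟨y, y', hyy, rfl⟩ | ⟨y, rfl⟩ | ⟨y, rfl⟩
  · have hp : 0 < (gaussianReal 0 1).real (Set.Ioc y y') := gauss_pos hyy Set.Ioo_subset_Ioc_self
    obtain ⟨q, hq⟩ : ∃ q, q = (gaussianReal 0 1).real (Set.Ioc y y') := ⟨_, rfl⟩
    rw [← hq] at hp ⊢
    rw [gauss_Ioc hyy.le] at hq
    obtain ⟨δ₁, hδ₁, h1⟩ := Phi_right (y := y') (show 0 < q / 4 by positivity)
    obtain ⟨δ₂, hδ₂, h2⟩ := Phi_left (y := y) (show 0 < q / 4 by positivity)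
    obtain ⟨η, hη⟩ : ∃ η, η = min δ₁ δ₂ := ⟨_, rfl⟩
    have hη0 : 0 < η := by rw [hη]; exact lt_min hδ₁ hδ₂
    have hη1 : η ≤ δ₁ := by rw [hη]; exact min_le_left _ _
    have hη2 : η ≤ δ₂ := by rw [hη]; exact min_le_right _ _
    refine ⟨measurableSet_Ioc, hp, _, enl_Ioc F y y' η hη0,
      dens_Ioc F _ _ _ (by linarith) ?_⟩
    have h3 : Phi (y' + η) ≤ Phi (y' + δ₁) := Phi_mono (by linarith)
    have h4 : Phi (y - δ₂) ≤ Phi (y - η) := Phi_mono (by linarith)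
    linarith
  · have hp : 0 < (gaussianReal 0 1).real (Set.Iic y) :=
      gauss_pos (y := y - 1) (y' := y) (by linarith) fun t ht => ht.2.le
    obtain ⟨q, hq⟩ : ∃ q, q = (gaussianReal 0 1).real (Set.Iic y) := ⟨_, rfl⟩
    rw [← hq] at hp ⊢
    have hq' : q = Phi y := hq
    obtain ⟨δ₁, hδ₁, h1⟩ := Phi_right (y := y) (show 0 < q / 4 by positivity)
    refine ⟨measurableSet_Iic, hp, _, enl_Iic F y δ₁ hδ₁, dens_Iic F _ _ ?_⟩
    linarith
  · have hp : 0 < (gaussianReal 0 1).real (Set.Ioi y) :=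
      gauss_pos (y := y) (y' := y + 1) (by linarith) fun t ht => ht.1
    obtain ⟨q, hq⟩ : ∃ q, q = (gaussianReal 0 1).real (Set.Ioi y) := ⟨_, rfl⟩
    rw [← hq] at hp ⊢
    rw [gauss_Ioi] at hq
    obtain ⟨δ₂, hδ₂, h2⟩ := Phi_left (y := y) (show 0 < q / 4 by positivity)
    refine ⟨measurableSet_Ioi, hp, _, enl_Ioi F y δ₂ hδ₂, dens_Ioi F _ _ ?_⟩
    linarith

/-- The upper bound, for one interval and for finite disjoint unions of intervals. -/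
theorem laws : ∃ C : ℝ, 0 < C ∧
    (∀ (F : Finset ℕ) (J : Set ℝ), Itv J → ∀ᶠ x : ℝ in atTop,
      pc F J x ≤ C * (gaussianReal 0 1).real J ^ (1 / 4 : ℝ) * (x / Real.log x)) ∧
    ∀ (F : Finset ℕ) (m : ℕ) (J : Fin m → Set ℝ), (∀ i, Itv (J i)) →
      (∀ i j, i ≠ j → Disjoint (J i) (J j)) → ∀ᶠ x : ℝ in atTop,
      pc F (⋃ i, J i) x ≤
        C * (gaussianReal 0 1).real (⋃ i, J i) ^ (1 / 4 : ℝ) * (x / Real.log x) := by
  obtain ⟨C, hC, h⟩ := law_aux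
  refine ⟨C, hC, fun F J hJ => ?_, fun F m J hJ hd => ?_⟩
  · obtain ⟨-, h1, h2⟩ := piece F J hJ
    exact h F J _ h1 h2
  · rcases Nat.eq_zero_or_pos m with hm | hm
    · subst hm
      filter_upwards [eventually_gt_atTop 1] with x hx
      have h3 : 0 < x / Real.log x := div_pos (by linarith) (Real.log_pos hx)
      have h4 : pc F (⋃ i, J i) x = 0 := by
        unfold pc
        have h5 : {p : ℕ | p.Prime ∧ (p : ℝ) ≤ x ∧ ∃ k, Fst F p k ∧ rt p k ∈ ⋃ i, J i} = ∅ := by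
          rw [Set.eq_empty_iff_forall_notMem]
          rintro p ⟨-, -, k, -, hk⟩
          rw [Set.mem_iUnion] at hk
          obtain ⟨i, -⟩ := hk
          exact i.elim0
        rw [h5, Set.ncard_empty, Nat.cast_zero]
      rw [h4]
      have h5 := Real.rpow_nonneg (MeasureTheory.measureReal_nonneg
        (μ := gaussianReal 0 1) (s := ⋃ i, J i)) (1 / 4)
      positivity
    · have hp := fun i => (piece F (J i) (hJ i)).2.1
      have hms := fun i => (piece F (J i) (hJ i)).1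
      choose J' hE hD using fun i => (piece F (J i) (hJ i)).2.2
      have hsum : (gaussianReal 0 1).real (⋃ i, J i) = ∑ i, (gaussianReal 0 1).real (J i) := by
        have h3 := MeasureTheory.measureReal_biUnion_finset (μ := gaussianReal 0 1)
          (s := Finset.univ) (f := J) (fun i _ j _ hij => hd i j hij) fun i _ => hms i
        rw [← h3]
        congr 1
        ext t
        simp
      have hq : 0 < (gaussianReal 0 1).real (⋃ i, J i) := by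
        rw [hsum]
        exact Finset.sum_pos (fun i _ => hp i) ⟨⟨0, hm⟩, Finset.mem_univ _⟩
      refine h F _ _ hq ⟨⋃ i, J' i, ?_, ?_⟩
      · intro K
        choose N hN using fun i => hE i K
        refine ⟨∑ i, |N i|, fun n hn j hj => ?_⟩
        have hNi : ∀ i, N i ≤ n := fun i => ((le_abs_self _).trans
          (Finset.single_le_sum (f := fun i => |N i|) (fun i _ => abs_nonneg _)
            (Finset.mem_univ i))).trans hn
        refine ⟨(hN ⟨0, hm⟩ n (hNi _) j hj).1, fun k hk hr => ?_⟩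
        rw [Set.mem_iUnion] at hr
        obtain ⟨i, hi⟩ := hr
        obtain ⟨h3, h4⟩ := (hN i n (hNi i) j hj).2 k hk hi
        exact ⟨h3, Set.mem_iUnion.2 ⟨i, h4⟩⟩
      · filter_upwards [eventually_all.2 hD] with x hx
        have hfin : ∀ i, {n : ℕ | 2 ≤ n ∧ n ≤ x ∧ ∃ k, Fst F n k ∧ rt n k ∈ J' i}.Finite :=
          fun i => (Set.finite_Icc 2 x).subset fun n hn => ⟨hn.1, hn.2.1⟩
        have hsub : {n : ℕ | 2 ≤ n ∧ n ≤ x ∧ ∃ k, Fst F n k ∧ rt n k ∈ ⋃ i, J' i} ⊆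
            ⋃ i ∈ Finset.univ, {n : ℕ | 2 ≤ n ∧ n ≤ x ∧ ∃ k, Fst F n k ∧ rt n k ∈ J' i} := by
          rintro n ⟨h3, h4, k, h5, h6⟩
          rw [Set.mem_iUnion] at h6
          obtain ⟨i, hi⟩ := h6
          rw [Set.mem_iUnion₂]
          exact ⟨i, Finset.mem_univ i, h3, h4, k, h5, hi⟩
        have h3 := Set.ncard_le_ncard hsub (Set.Finite.biUnion (Finset.finite_toSet _)
          fun i _ => hfin i)
        have h4 := Finset.set_ncard_biUnion_le Finset.univ fun i =>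
          {n : ℕ | 2 ≤ n ∧ n ≤ x ∧ ∃ k, Fst F n k ∧ rt n k ∈ J' i}
        have h5 : ({n : ℕ | 2 ≤ n ∧ n ≤ x ∧ ∃ k, Fst F n k ∧ rt n k ∈ ⋃ i, J' i}.ncard : ℝ) ≤
            ∑ i, ({n : ℕ | 2 ≤ n ∧ n ≤ x ∧ ∃ k, Fst F n k ∧ rt n k ∈ J' i}.ncard : ℝ) := by
          exact_mod_cast h3.trans h4
        refine h5.trans ((Finset.sum_le_sum fun i _ => hx i).trans (le_of_eq ?_))
        rw [hsum, Finset.mul_sum, Finset.sum_mul]

theorem law : ∃ C : ℝ, 0 < C ∧ ∀ (F : Finset ℕ) (J : Set ℝ), Itv J → ∀ᶠ x : ℝ in atTop,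
    pc F J x ≤ C * (gaussianReal 0 1).real J ^ (1 / 4 : ℝ) * (x / Real.log x) := by
  obtain ⟨C, hC, h, -⟩ := laws
  exact ⟨C, hC, h⟩

theorem order_small {η : ℝ} (hη : 0 < η) : ∃ h : ℝ, 0 < h ∧
    (gaussianReal 0 1).real (Set.Ioc (-h) h) ≤ η := by
  obtain ⟨δ, hδ, h⟩ := Phi_right (y := 0) (show 0 < η / 2 by positivity)
  refine ⟨δ, hδ, ?_⟩
  rw [gauss_Ioc (by linarith), Phi_neg]
  have h0 := Phi_neg 0
  rw [neg_zero] at h0
  rw [zero_add] at h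
  linarith

/-- The order of the deviations. -/
theorem order {ε : ℝ} (hε : 0 < ε) : ∃ κ K : ℝ, 0 < κ ∧ κ < K ∧ ∀ F : Finset ℕ,
    ∀ᶠ x : ℝ in atTop, (Set.ncard {p : ℕ | p.Prime ∧ (p : ℝ) ≤ x ∧ ∃ k, Fst F p k ∧
      ¬ (κ * √(Real.log p) < |(k : ℝ) - gm * Real.log p| ∧
        |(k : ℝ) - gm * Real.log p| < K * √(Real.log p))} : ℝ) ≤ ε * (x / Real.log x) := by
  obtain ⟨C, hC, hlaw⟩ := law
  have hv := vr_pos
  have hsv : 0 < √vr := Real.sqrt_pos.2 hv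
  obtain ⟨q, hq⟩ : ∃ q : ℝ, q = (ε / (3 * C)) ^ 4 := ⟨_, rfl⟩
  have hq0 : 0 < q := by rw [hq]; positivity
  have hq4 : q ^ (1 / 4 : ℝ) = ε / (3 * C) := by
    rw [hq, ← Real.rpow_natCast, ← Real.rpow_mul (by positivity)]
    norm_num
  obtain ⟨h, hh, h1⟩ := order_small hq0
  obtain ⟨R, hR, h2⟩ := Phi_far hq0
  obtain ⟨κ, hκ⟩ : ∃ κ : ℝ, κ = h / 2 * √vr := ⟨_, rfl⟩
  obtain ⟨K, hK⟩ : ∃ K : ℝ, K = κ + (R + 1) * √vr := ⟨_, rfl⟩
  have hκ0 : 0 < κ := by rw [hκ]; positivity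
  have hRv : 0 < (R + 1) * √vr := by positivity
  have hmon : ∀ J : Set ℝ, (gaussianReal 0 1).real J ≤ q →
      C * (gaussianReal 0 1).real J ^ (1 / 4 : ℝ) ≤ ε / 3 := by
    intro J hJ
    have h3 : (gaussianReal 0 1).real J ^ (1 / 4 : ℝ) ≤ q ^ (1 / 4 : ℝ) :=
      Real.rpow_le_rpow MeasureTheory.measureReal_nonneg hJ (by norm_num)
    calc C * (gaussianReal 0 1).real J ^ (1 / 4 : ℝ) ≤ C * (ε / (3 * C)) :=
          mul_le_mul_of_nonneg_left (h3.trans hq4.le) hC.le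
      _ = ε / 3 := by field_simp
  have g1 := hmon _ h1
  have g2 : C * (gaussianReal 0 1).real (Set.Iic (-R)) ^ (1 / 4 : ℝ) ≤ ε / 3 := hmon _ h2
  have g3 : C * (gaussianReal 0 1).real (Set.Ioi R) ^ (1 / 4 : ℝ) ≤ ε / 3 := by
    apply hmon
    rw [gauss_Ioi, ← Phi_neg]
    exact h2
  refine ⟨κ, K, hκ0, by rw [hK]; linarith, fun F => ?_⟩
  filter_upwards [hlaw F (Set.Ioc (-h) h) (Or.inl ⟨-h, h, by linarith, rfl⟩),
    hlaw F (Set.Iic (-R)) (Or.inr (Or.inl ⟨-R, rfl⟩)),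
    hlaw F (Set.Ioi R) (Or.inr (Or.inr ⟨R, rfl⟩)), eventually_gt_atTop 1] with x a1 a2 a3 hx1
  have hxl : 0 < x / Real.log x := div_pos (by linarith) (Real.log_pos hx1)
  have b1 := a1.trans (mul_le_mul_of_nonneg_right g1 hxl.le)
  have b2 := a2.trans (mul_le_mul_of_nonneg_right g2 hxl.le)
  have b3 := a3.trans (mul_le_mul_of_nonneg_right g3 hxl.le)
  have hsub : {p : ℕ | p.Prime ∧ (p : ℝ) ≤ x ∧ ∃ k, Fst F p k ∧
      ¬ (κ * √(Real.log p) < |(k : ℝ) - gm * Real.log p| ∧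
        |(k : ℝ) - gm * Real.log p| < K * √(Real.log p))} ⊆
      ({p : ℕ | p.Prime ∧ (p : ℝ) ≤ x ∧ ∃ k, Fst F p k ∧ rt p k ∈ Set.Ioc (-h) h} ∪
      {p : ℕ | p.Prime ∧ (p : ℝ) ≤ x ∧ ∃ k, Fst F p k ∧ rt p k ∈ Set.Iic (-R)}) ∪
      {p : ℕ | p.Prime ∧ (p : ℝ) ≤ x ∧ ∃ k, Fst F p k ∧ rt p k ∈ Set.Ioi R} := by
    rintro p ⟨hp, hpx, k, hk, hn⟩
    have hl : 0 < Real.log p := Real.log_pos (by exact_mod_cast hp.one_lt)
    have hsl : 0 < √(Real.log p) := Real.sqrt_pos.2 hl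
    obtain ⟨D, hD⟩ : ∃ D, D = (k : ℝ) - gm * Real.log p := ⟨_, rfl⟩
    have hle : ∀ y : ℝ, rt p k ≤ y ↔ D ≤ y * √vr * √(Real.log p) := by
      intro y
      rw [rt_le hl, ← hD, Real.sqrt_mul hv.le, mul_assoc]
    have hlt : ∀ y : ℝ, y < rt p k ↔ y * √vr * √(Real.log p) < D := by
      intro y
      rw [lt_rt hl, ← hD, Real.sqrt_mul hv.le, mul_assoc]
    rw [← hD] at hn
    rcases le_or_gt |D| (κ * √(Real.log p)) with h3 | h3
    · left; left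
      refine ⟨hp, hpx, k, hk, ?_, ?_⟩
      · rw [hlt]
        have h4 := (abs_le.1 h3).1
        have h5 : κ * √(Real.log p) < h * √vr * √(Real.log p) := by
          apply mul_lt_mul_of_pos_right _ hsl
          rw [hκ]
          nlinarith [mul_pos hh hsv]
        linarith
      · rw [hle]
        have h4 := (abs_le.1 h3).2
        have h5 : κ * √(Real.log p) ≤ h * √vr * √(Real.log p) := by
          apply mul_le_mul_of_nonneg_right _ hsl.le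
          rw [hκ]
          nlinarith [mul_pos hh hsv]
        linarith
    · have h4 : K * √(Real.log p) ≤ |D| := by
        by_contra hcon
        push Not at hcon
        exact hn ⟨h3, hcon⟩
      have h5 : R * √vr * √(Real.log p) < K * √(Real.log p) := by
        apply mul_lt_mul_of_pos_right _ hsl
        rw [hK]
        nlinarith
      rcases le_or_gt 0 D with h6 | h6
      · right
        refine ⟨hp, hpx, k, hk, ?_⟩
        rw [Set.mem_Ioi, hlt]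
        rw [abs_of_nonneg h6] at h4
        linarith
      · left; right
        refine ⟨hp, hpx, k, hk, ?_⟩
        rw [Set.mem_Iic, hle]
        rw [abs_of_neg h6] at h4
        linarith
  have h6 := Set.ncard_le_ncard hsub (((pc_fin F _ x).union (pc_fin F _ x)).union (pc_fin F _ x))
  have h7 := h6.trans (Set.ncard_union_le _ _)
  have h8 := h7.trans (Nat.add_le_add_right (Set.ncard_union_le _ _) _)
  unfold pc at b1 b2 b3
  have h9 : (Set.ncard {p : ℕ | p.Prime ∧ (p : ℝ) ≤ x ∧ ∃ k, Fst F p k ∧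
      ¬ (κ * √(Real.log p) < |(k : ℝ) - gm * Real.log p| ∧
        |(k : ℝ) - gm * Real.log p| < K * √(Real.log p))} : ℝ) ≤
      (Set.ncard {p : ℕ | p.Prime ∧ (p : ℝ) ≤ x ∧ ∃ k, Fst F p k ∧ rt p k ∈ Set.Ioc (-h) h} : ℝ) +
      (Set.ncard {p : ℕ | p.Prime ∧ (p : ℝ) ≤ x ∧ ∃ k, Fst F p k ∧ rt p k ∈ Set.Iic (-R)} : ℝ) +
      (Set.ncard {p : ℕ | p.Prime ∧ (p : ℝ) ≤ x ∧ ∃ k, Fst F p k ∧ rt p k ∈ Set.Ioi R} : ℝ) := by
    exact_mod_cast h8
  linarith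

end Pool.Agent.Helper15.PT
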