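import Mathlib
import Pool.Agent.Helper15.PT.Main
import Pool.Agent.CPR.All

set_option autoImplicit false

/-!
# Passage times of primes, module Low: the primes reaching `a`, and the rate
-/

namespace Pool.Agent.Helper15.PT

open Filter Topology
open Pool.Agent.Collatz3.FW (Tn iter_cast cN domain_density reach_tendsto)
open Pool.Agent.Collatz3.DN (Dens dens_exists Reach)
open Pool.Agent.Helper14 (T)

/-- The primes which reach `a`. -/
theorem low : ∃ c : ℝ, 0 < c ∧ ∀ a : ℕ, 0 < a → ¬ 3 ∣ a → ∀ᶠ x : ℝ in atTop,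
    c / a * (x / Real.log x) ≤
      (Set.ncard {p : ℕ | p.Prime ∧ (p : ℝ) ≤ x ∧ ∃ k, Fst {a} p k} : ℝ) := by
  obtain ⟨c₁, hc₁, hF⟩ := Pool.Agent.CPR.all_Fin
  obtain ⟨c₂, hc₂, hD⟩ := domain_density
  refine ⟨c₁ * c₂, by positivity, fun a ha h3 => ?_⟩
  have ha0 : (0 : ℝ) < a := by exact_mod_cast ha
  obtain ⟨S, hS⟩ : ∃ S : Set ℤ, S = {(a : ℤ)} := ⟨_, rfl⟩
  have hC : ∀ c ∈ S, |c| ≤ (a : ℕ) := by
    intro c hc
    rw [hS, Set.mem_singleton_iff] at hc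
    rw [hc, Nat.abs_cast]
  have hev := Pool.Agent.Collatz3.DN.Reach.evInv hC
  have hreach : ∀ n : ℕ, (n : ℤ) ∈ Reach S ↔ ∃ k : ℕ, Tn^[k] n = a := by
    intro n
    constructor
    · rintro ⟨k, hk⟩
      rw [iter_cast, hS, Set.mem_singleton_iff] at hk
      exact ⟨k, by exact_mod_cast hk⟩
    · rintro ⟨k, hk⟩
      exact ⟨k, by rw [iter_cast, hS, hk]; rfl⟩
  obtain ⟨d, hd⟩ := dens_exists (σ := 1) (by norm_num) hev
  have hdc : c₂ / a ≤ d := by
    have h1 := (reach_tendsto hd).comp tendsto_natCast_atTop_atTop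
    refine ge_of_tendsto h1 ?_
    filter_upwards [eventually_ge_atTop a] with x hx
    have hx0 : (0 : ℝ) < x := lt_of_lt_of_le ha0 (by exact_mod_cast hx)
    have h2 := hD a ha h3 x hx
    simp only [Function.comp]
    rw [le_div_iff₀ hx0]
    have e1 : c₂ * ((x : ℝ) / a) = c₂ / a * x := by ring
    rw [e1] at h2
    refine h2.trans (le_of_eq ?_)
    unfold cN
    congr 2
    ext n
    simp only [Set.mem_ofPred_eq, Nat.cast_le, hreach]
  have hd0 : 0 < d := lt_of_lt_of_le (by positivity) hdc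
  filter_upwards [hF a (Reach S) 1 d (Or.inl rfl) hev hd hd0, eventually_gt_atTop 1] with x hx hx1
  have hxl : 0 < x / Real.log x := div_pos (by linarith) (Real.log_pos hx1)
  have e1 : c₁ * c₂ / a * (x / Real.log x) ≤ c₁ * d * x / Real.log x := by
    rw [mul_div_assoc, mul_div_assoc]
    exact mul_le_mul_of_nonneg_right (mul_le_mul_of_nonneg_left hdc hc₁.le) hxl.le
  refine (e1.trans hx).trans (le_of_eq ?_)
  congr 2
  ext p
  simp only [Set.mem_ofPred_eq, one_mul, hreach]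
  constructor
  · rintro ⟨h1, h2, k, hk⟩
    exact ⟨h1, h2, Fst_exists ⟨k, by rw [hk]; exact Finset.mem_singleton_self a⟩⟩
  · rintro ⟨h1, h2, k, hk, -⟩
    exact ⟨h1, h2, k, Finset.mem_singleton.1 hk⟩

theorem gm_lt : 2 / Real.log (4 / 3) < 7 := by
  have h1 : (2 / 7 : ℝ) < Real.log (4 / 3) := by
    rw [Real.lt_log_iff_exp_lt (by norm_num)]
    have h2 : Real.exp (2 / 7 : ℝ) ^ 7 = Real.exp 1 ^ 2 := by
      rw [← Real.exp_nat_mul, ← Real.exp_nat_mul]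
      norm_num
    have h3 := Real.exp_one_lt_d9
    have h4 : Real.exp (2 / 7 : ℝ) ^ 7 < (4 / 3) ^ 7 := by
      rw [h2]
      have h5 : Real.exp 1 ^ 2 < 2.7182818286 ^ 2 :=
        pow_lt_pow_left₀ h3 (Real.exp_pos _).le (by norm_num)
      refine h5.trans ?_
      norm_num
    exact lt_of_pow_lt_pow_left₀ 7 (by norm_num) h4
  rw [div_lt_iff₀ (by linarith)]
  linarith

/-- The rate. -/
theorem rate : ∃ c C : ℝ, 0 < c ∧ 0 < C ∧ ∀ M : ℝ, 1 ≤ M → ∀ x : ℝ, 2 ≤ x →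
    (Set.ncard {p : ℕ | p.Prime ∧ (p : ℝ) ≤ x ∧ ∀ k : ℕ,
      (k : ℝ) ≤ 7 * Real.log x + C * Real.log M → M < (Tn^[k] p : ℕ)} : ℝ) ≤
      C * M ^ (-c) * (x / Real.log x) := by
  obtain ⟨c, hc, h, -⟩ := Pool.Agent.Collatz3.PR.primes_of_main Pool.Agent.Collatz3.PR.all
  obtain ⟨C, hC, h⟩ := h (7 - 2 / Real.log (4 / 3)) (by linarith [gm_lt])
  refine ⟨c, C, hc, hC, fun M hM x hx => ?_⟩
  have h1 := h M hM x hx
  have e1 : C * (x / Real.log x) * M ^ (-c) = C * M ^ (-c) * (x / Real.log x) := by ring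
  rw [e1] at h1
  refine le_trans ?_ h1
  obtain ⟨E, hE⟩ : ∃ E : Set ℤ, E = {n : ℤ | |(n : ℝ)| ≤ x ∧ n.natAbs.Prime ∧ ∀ j : ℕ,
    (j : ℝ) ≤ (2 / Real.log (4 / 3) + (7 - 2 / Real.log (4 / 3))) * Real.log x +
      C * Real.log M → M < |((T^[j] n : ℤ) : ℝ)|} := ⟨_, rfl⟩
  rw [← hE]
  have hfin : E.Finite := by
    rw [hE]
    exact (Pool.Agent.Helper14.abs_le_finite x).subset fun n hn => hn.1
  have hsub : (fun p : ℕ => (p : ℤ)) '' {p : ℕ | p.Prime ∧ (p : ℝ) ≤ x ∧ ∀ k : ℕ,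
      (k : ℝ) ≤ 7 * Real.log x + C * Real.log M → M < (Tn^[k] p : ℕ)} ⊆ E := by
    rintro _ ⟨p, ⟨hp, hpx, hk⟩, rfl⟩
    rw [hE]
    refine ⟨?_, ?_, fun j hj => ?_⟩
    · rw [Int.cast_natCast, Nat.abs_cast]
      exact hpx
    · rw [Int.natAbs_natCast]
      exact hp
    · rw [iter_cast, Int.cast_natCast, Nat.abs_cast]
      apply hk j
      refine hj.trans (le_of_eq ?_)
      ring
  have h2 := Set.ncard_le_ncard hsub hfin
  rw [Set.ncard_image_of_injective _ Nat.cast_injective] at h2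
  exact_mod_cast h2

end Pool.Agent.Helper15.PT
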